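import Mathlib

/-!
# The ideals `S_{I, ε}` and their cardinal invariants
-/

set_option autoImplicit false

namespace Pool.Agent.H631.EV

open Cardinal Filter Topology

/-- The interval `I n = {a n, a n + 1, …, a (n + 1) - 1}`. -/
abbrev Iv (a : ℕ → ℕ) (n : ℕ) : Type := {i : ℕ // a n ≤ i ∧ i < a (n + 1)}

noncomputable instance (a : ℕ → ℕ) (n : ℕ) : Fintype (Iv a n) :=
  Fintype.subtype (Finset.Ico (a n) (a (n + 1))) fun i => by simp

/-- `a` gives a partition of `ℕ` into nonempty finite intervals `I n = [a n, a (n + 1))`. -/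
def IsPartition (a : ℕ → ℕ) : Prop := a 0 = 0 ∧ StrictMono a

/-- The restriction of `x` to the interval `I n`. -/
def res (a : ℕ → ℕ) (n : ℕ) (x : ℕ → Bool) : Iv a n → Bool := fun i => x i.1

/-- `φ ∈ Σ_{I, ε}`: `φ n` is a set of functions from `I n` to `{0, 1}`, and
`|φ n| / (2 ^ |I n| * ε n)` tends to `0`. -/
def InSigma (a : ℕ → ℕ) (ε : ℕ → ℝ) (φ : (n : ℕ) → Finset (Iv a n → Bool)) : Prop :=
  Tendsto (fun n => ((φ n).card : ℝ) / (2 ^ (a (n + 1) - a n) * ε n)) atTop (𝓝 0)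

/-- `[φ]_∞`: the set of the `x` such that `x ↾ I n ∈ φ n` for infinitely many `n`. -/
def InfOften (a : ℕ → ℕ) (φ : (n : ℕ) → Finset (Iv a n → Bool)) : Set (ℕ → Bool) :=
  {x | ∀ N, ∃ n, N ≤ n ∧ res a n x ∈ φ n}

/-- The ideal `S_{I, ε}`. -/
def SIdeal (a : ℕ → ℕ) (ε : ℕ → ℝ) : Set (Set (ℕ → Bool)) :=
  {X | ∃ φ, InSigma a ε φ ∧ X ⊆ InfOften a φ}

/-- Additivity. -/
noncomputable def addC {X : Type} (J : Set (Set X)) : Cardinal.{0} :=
  sInf {κ | ∃ F : Set (Set X), F ⊆ J ∧ ⋃₀ F ∉ J ∧ #F = κ}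

/-- Covering number. -/
noncomputable def covC {X : Type} (J : Set (Set X)) : Cardinal.{0} :=
  sInf {κ | ∃ F : Set (Set X), F ⊆ J ∧ ⋃₀ F = Set.univ ∧ #F = κ}

/-- Uniformity. -/
noncomputable def nonC {X : Type} (J : Set (Set X)) : Cardinal.{0} :=
  sInf {κ | ∃ A : Set X, A ∉ J ∧ #A = κ}

/-- Cofinality. -/
noncomputable def cofC {X : Type} (J : Set (Set X)) : Cardinal.{0} :=
  sInf {κ | ∃ F : Set (Set X), F ⊆ J ∧ (∀ A ∈ J, ∃ B ∈ F, A ⊆ B) ∧ #F = κ}

/-- functions on the intervals can be glued -/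
theorem glue {a : ℕ → ℕ} (ha : IsPartition a) (w : (n : ℕ) → Iv a n → Bool) :
    ∃ x : ℕ → Bool, ∀ n, res a n x = w n := by
  have hex : ∀ i : ℕ, ∃ n, a n ≤ i ∧ i < a (n + 1) := by
    intro i
    have h1 : ∃ n, i < a (n + 1) := ⟨i, lt_of_lt_of_le (Nat.lt_succ_self i)
      (ha.2.le_apply (x := i + 1))⟩
    classical
    refine ⟨Nat.find h1, ?_, Nat.find_spec h1⟩
    by_cases h0 : Nat.find h1 = 0
    · rw [h0, ha.1]
      exact Nat.zero_le i
    · obtain ⟨m, hm⟩ := Nat.exists_eq_succ_of_ne_zero h0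
      rw [hm]
      have := Nat.find_min h1 (m := m) (by omega)
      exact not_lt.1 this
  choose idx hidx using hex
  refine ⟨fun i => w (idx i) ⟨i, hidx i⟩, fun n => funext fun i => ?_⟩
  have huniq : ∀ m, (hm : a m ≤ i.1 ∧ i.1 < a (m + 1)) → w m ⟨i.1, hm⟩ = w n i := by
    intro m hm
    have hmn : m = n := by
      rcases lt_trichotomy m n with h | h | h
      · have h2 : a (m + 1) ≤ a n := ha.2.monotone h
        have h3 := i.2.1
        omega
      · exact h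
      · have h2 : a (n + 1) ≤ a m := ha.2.monotone h
        have h3 := i.2.2
        omega
    subst hmn
    rfl
  exact huniq _ (hidx i.1)

end Pool.Agent.H631.EV
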