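import Pool.Agent.H631.EV.Choose

/-!
# Long stems, and common extensions of a large part of a finite family of conditions
-/

set_option autoImplicit false
set_option linter.unusedSectionVars false

namespace Pool.Agent.H631.EV

open Classical

variable {M I : Type}

/-- the name in a requirement -/
def xOf (z : Option (Nm M I)) : Nm M I :=
  match z with
  | some x => x
  | none => fun _ _ => none

theorem getD_append_map {s : List ℕ} {N i : ℕ} (f : ℕ → ℕ) (h1 : s.length ≤ i)
    (h2 : i < s.length + N) : (s ++ (List.range N).map f).getD i 0 = f (i - s.length) := by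
  rw [List.getD_append_right _ _ _ _ h1, List.getD_eq_getElem _ _ (by simp; omega)]
  simp

theorem core (Γ : Par M I) (j : I) (r : Cond M I) (s : List ℕ) {ι : Type} (F : Finset ι)
    (pr : ι → Finset M) (hpr : ∀ l ∈ F, (pr l).card ≤ s.length)
    (hs : ∀ i < s.length, s.getD i 0 < bb i) (N : ℕ) (hN : s.length ≤ N) :
    ∃ (t : Cond M I) (st : List ℕ) (F' : Finset ι), le Γ (below Γ j) t r ∧ s <+: st ∧
      st.length = N ∧ (∀ i < st.length, st.getD i 0 < bb i) ∧ F' ⊆ F ∧
      F.card ≤ 2 * F'.card ∧ ∀ l ∈ F', ∀ m ∈ pr l, ∀ x, Γ.req j m = some x →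
        ∀ i, s.length ≤ i → i < st.length → ∀ e ≤ i, ∀ t', le Γ (below Γ j) t' t → ∀ n,
          Val (le Γ (below Γ j)) t' x (Nat.pair i e) n → st.getD i 0 ≠ n := by
  set S : Set I := below Γ j with hSdef
  have hS : Low Γ S := low_below _
  obtain ⟨t, htp, htd⟩ := Val.decideF (Γ := Γ) hS
    ((F.biUnion pr) ×ˢ (Finset.range N ×ˢ Finset.range (N + 1)))
    (fun z : M × ℕ × ℕ => xOf (Γ.req j z.1)) (fun z => Nat.pair z.2.1 z.2.2) r
  have hdec : ∀ m i e, ∃ v, m ∈ F.biUnion pr → i < N → e ≤ i →
      Val (le Γ S) t (xOf (Γ.req j m)) (Nat.pair i e) v := by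
    intro m i e
    by_cases h : m ∈ F.biUnion pr ∧ i < N ∧ e ≤ i
    · obtain ⟨v, hv⟩ := htd (m, i, e) (Finset.mem_product.2 ⟨h.1, Finset.mem_product.2
        ⟨Finset.mem_range.2 h.2.1, Finset.mem_range.2
          (lt_of_le_of_lt h.2.2 (Nat.lt_succ_of_lt h.2.1))⟩⟩)
      exact ⟨v, fun _ _ _ => hv⟩
    · exact ⟨0, fun h1 h2 h3 => absurd ⟨h1, h2, h3⟩ h⟩
  choose val hval using hdec
  let B : ι → ℕ → Finset ℕ := fun l i => ((pr l) ×ˢ Finset.range (i + 1)).image
    fun z => val z.1 i z.2
  have hB : ∀ l ∈ F, ∀ i, s.length ≤ i → (B l i).card ≤ s.length * (i + 1) := by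
    intro l hl i _
    refine Finset.card_image_le.trans ?_
    rw [Finset.card_product, Finset.card_range]
    exact Nat.mul_le_mul_right _ (hpr l hl)
  obtain ⟨v, hv, F', hF', hc, hav⟩ := multi' s.length F B hB N hN
  let st : List ℕ := s ++ (List.range (N - s.length)).map fun i => v (s.length + i)
  have hstlen : st.length = N := by
    simp only [st, List.length_append, List.length_map, List.length_range]
    omega
  have hst1 : ∀ i < s.length, st.getD i 0 = s.getD i 0 := by
    intro i hi
    exact List.getD_append _ _ _ _ hi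
  have hst2 : ∀ i, s.length ≤ i → i < st.length → st.getD i 0 = v i := by
    intro i hi hi'
    have h1 : st.getD i 0 = v (s.length + (i - s.length)) := getD_append_map _ hi (by omega)
    rw [h1]
    congr 1
    omega
  refine ⟨t, st, F', htp, List.prefix_append _ _, hstlen, fun i hi => ?_, hF', hc, ?_⟩
  · by_cases h : i < s.length
    · rw [hst1 i h]
      exact hs i h
    · rw [hst2 i (not_lt.1 h) hi]
      exact hv i
  · intro l hl m hm x hx i hi hi' e he t' ht' n hn
    have hmF : m ∈ F.biUnion pr := Finset.mem_biUnion.2 ⟨l, hF' hl, hm⟩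
    have h1 : Val (le Γ S) t' x (Nat.pair i e) (val m i e) := by
      have := (hval m i e hmF (by omega) he).mono hS ht'
      rwa [hx] at this
    have h2 : n = val m i e := Val.unique hn h1
    rw [hst2 i hi hi', h2]
    intro h3
    refine hav l hl i hi (by omega) ?_
    rw [h3]
    exact Finset.mem_image.2 ⟨(m, e), Finset.mem_product.2 ⟨hm, Finset.mem_range.2 (by omega)⟩,
      rfl⟩

theorem ext_long (Γ : Par M I) (j : I) (N : ℕ) (p : Cond M I) :
    ∃ p', le Γ Set.univ p' p ∧ N ≤ (p' j).stem.length ∧ (p' j).pr = (p j).pr ∧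
      ∀ i, ¬ Γ.lt i j → i ≠ j → p' i = p i := by
  set S : Set I := below Γ j with hSdef
  have hS : Low Γ S := low_below _
  have hjS : j ∉ S := not_lt_self j
  have hl := p.legit j
  obtain ⟨t, st, F', htp, hpre, hlen, hst, -, hcard, hav⟩ := core Γ j p (p j).stem
    ({()} : Finset Unit) (fun _ => (p j).pr) (fun _ _ => hl.1) hl.2 (max N (p j).stem.length)
    (le_max_right _ _)
  have hF' : () ∈ F' := by
    have h1 : 0 < F'.card := by
      rw [Finset.card_singleton] at hcard
      omega
    obtain ⟨a, ha⟩ := Finset.card_pos.1 h1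
    exact ha
  have hleg : Legit (⟨st, (p j).pr⟩ : CV M) := by
    refine ⟨?_, hst⟩
    show (p j).pr.card ≤ st.length
    rw [hlen]
    exact hl.1.trans (le_max_right _ _)
  let p1 : Cond M I := mix S t p
  let p' : Cond M I := upd p1 j ⟨st, (p j).pr⟩ hleg
  have hp'j : p' j = ⟨st, (p j).pr⟩ := upd_same p1 j _ hleg
  have hp'S : ∀ i ∈ S, p' i = t i := by
    intro i hi
    have hne : i ≠ j := fun h => hjS (h ▸ hi)
    rw [upd_of_ne p1 _ hleg hne]
    exact mix_mem t p hi
  have hp'o : ∀ i, i ∉ S → i ≠ j → p' i = p i := by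
    intro i hi hne
    rw [upd_of_ne p1 _ hleg hne]
    exact mix_notMem t p hi
  refine ⟨p', ?_, ?_, ?_, hp'o⟩
  · intro i _
    by_cases hi : i ∈ S
    · exact ext_congr i (fun l hl => (hp'S l (hS i hi l hl)).symm) (hp'S i hi).symm rfl (htp i hi)
    · by_cases hij : i = j
      · subst hij
        rw [ext_iff, hp'j]
        refine ⟨hpre, Finset.Subset.refl _, ?_⟩
        intro k hk x hx m hm hm' e he t' ht' n hn
        have htt : le Γ S t' t := le_trans' hS ht'
          (le_congr hS (fun l hl => (hp'S l hl).symm) (fun _ _ => rfl) (le_refl' S t))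
        exact hav () hF' k hk x hx m hm hm' e he t' htt n hn
      · exact ext_of_eq (hp'o i hi hij)
  · rw [hp'j]
    show N ≤ st.length
    rw [hlen]
    exact le_max_left _ _
  · rw [hp'j]

/-- a large part of a finite family of conditions has a common extension, if the supports are
disjoint outside a finite set `R` and the stems are the same on `R` -/
theorem merge (Γ : Par M I) {ι : Type} (F : Finset ι) (p : ι → Cond M I) (R : Finset I)
    (hdis : ∀ l ∈ F, ∀ l' ∈ F, l ≠ l' → ∀ i ∉ R, p l i = CV.top ∨ p l' i = CV.top)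
    (hst : ∀ l ∈ F, ∀ l' ∈ F, ∀ i ∈ R, (p l i).stem = (p l' i).stem) :
    ∃ F' ⊆ F, F.card ≤ 2 ^ R.card * F'.card ∧ ∃ r : Cond M I, ∀ l ∈ F',
      le Γ Set.univ r (p l) := by
  have key : ∀ n ≤ R.card, ∃ Q ⊆ R, Q.card = n ∧ ∃ F' ⊆ F, F.card ≤ 2 ^ n * F'.card ∧
      ∃ r : Cond M I, (∀ i ∈ R \ Q, r i = CV.top) ∧
        ∀ l ∈ F', ∀ i, (i ∈ R → i ∈ Q) → ext Γ i r (p l) := by
    intro n
    induction n with
    | zero =>
      intro _
      refine ⟨∅, Finset.empty_subset _, rfl, F, Finset.Subset.refl _, by simp, ?_⟩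
      let f : I → CV M := fun i => if i ∈ R then CV.top else
        if h : ∃ l ∈ F, p l i ≠ CV.top then p h.choose i else CV.top
      have hf1 : ∀ i ∈ R, f i = CV.top := fun i hi => if_pos hi
      have hf2 : ∀ i ∉ R, ∀ l ∈ F, p l i ≠ CV.top → f i = p l i := by
        intro i hi l hl h
        have hex : ∃ l ∈ F, p l i ≠ CV.top := ⟨l, hl, h⟩
        have h1 : f i = p hex.choose i := by
          simp only [f, if_neg hi, dif_pos hex]
        rw [h1]
        by_contra hne
        have hll : hex.choose ≠ l := by
          intro he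
          exact hne (by rw [he])
        rcases hdis _ hex.choose_spec.1 l hl hll i hi with h2 | h2
        · exact hex.choose_spec.2 h2
        · exact h h2
      have hf3 : ∀ i, f i ≠ CV.top → ∃ l ∈ F, f i = p l i := by
        intro i hi
        by_cases hR : i ∈ R
        · exact absurd (hf1 i hR) hi
        · by_cases hex : ∃ l ∈ F, p l i ≠ CV.top
          · refine ⟨hex.choose, hex.choose_spec.1, ?_⟩
            simp only [f, if_neg hR, dif_pos hex]
          · exfalso
            apply hi
            simp only [f, if_neg hR, dif_neg hex]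
      have hfin : {i | f i ≠ CV.top}.Finite := by
        refine Set.Finite.subset (Set.Finite.biUnion (Finset.finite_toSet F)
          fun l _ => (p l).2.1) ?_
        intro i hi
        obtain ⟨l, hl, he⟩ := hf3 i hi
        simp only [Set.mem_iUnion]
        refine ⟨l, hl, ?_⟩
        show p l i ≠ CV.top
        rw [← he]
        exact hi
      have hleg : ∀ i, Legit (f i) := by
        intro i
        by_cases h : f i = CV.top
        · rw [h]
          exact legit_top
        · obtain ⟨l, _, he⟩ := hf3 i h
          rw [he]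
          exact (p l).legit i
      refine ⟨⟨f, hfin, hleg⟩, fun i hi => hf1 i (Finset.mem_sdiff.1 hi).1, ?_⟩
      intro l hl i hi
      have hiR : i ∉ R := fun h => absurd (hi h) (Finset.notMem_empty i)
      by_cases h : p l i = CV.top
      · exact ext_top h
      · exact ext_of_eq (hf2 i hiR l hl h)
    | succ n ih =>
      intro hn
      obtain ⟨Q, hQR, hQn, F', hF', hc, r, hr1, hr2⟩ := ih (by omega)
      obtain ⟨j, hjRQ, hmin⟩ : ∃ j ∈ R \ Q, ∀ i ∈ R \ Q, ¬ Γ.lt i j := by
        have hne : ((R \ Q : Finset I) : Set I).Nonempty := by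
          rw [Finset.coe_nonempty, ← Finset.card_pos, Finset.card_sdiff_of_subset hQR]
          omega
        obtain ⟨j, hj, hj'⟩ := Γ.wf.has_min _ hne
        exact ⟨j, hj, fun i hi => hj' i hi⟩
      obtain ⟨hjR, hjQ⟩ := Finset.mem_sdiff.1 hjRQ
      have hcardQ : (insert j Q).card = n + 1 := by
        rw [Finset.card_insert_of_notMem hjQ, hQn]
      have hsubQ : insert j Q ⊆ R := Finset.insert_subset hjR hQR
      rcases F'.eq_empty_or_nonempty with hem | ⟨l0, hl0⟩
      · refine ⟨insert j Q, hsubQ, hcardQ, ∅, Finset.empty_subset _, ?_, Cond.one,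
          fun i _ => rfl, fun l hl => absurd hl (Finset.notMem_empty l)⟩
        rw [hem] at hc
        simpa using hc
      set S : Set I := below Γ j with hSdef
      have hS : Low Γ S := low_below _
      have hjS : j ∉ S := not_lt_self j
      set s := (p l0 j).stem with hs
      have hsl : ∀ l ∈ F', (p l j).stem = s := fun l hl => hst l (hF' hl) l0 (hF' hl0) j hjR
      obtain ⟨t, st, F'', htp, hpre, hlen, hstb, hF'', hcard, hav⟩ := core Γ j r s F'
        (fun l => (p l j).pr) (fun l hl => by
          have := ((p l).legit j).1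
          rwa [hsl l hl] at this) ((p l0).legit j).2
        (s.length + (F'.biUnion fun l => (p l j).pr).card) (Nat.le_add_right _ _)
      have hleg : Legit (⟨st, F''.biUnion fun l => (p l j).pr⟩ : CV M) := by
        refine ⟨?_, hstb⟩
        show (F''.biUnion fun l => (p l j).pr).card ≤ st.length
        rw [hlen]
        exact (Finset.card_le_card (Finset.biUnion_subset_biUnion_of_subset_left _ hF'')).trans
          (Nat.le_add_left _ _)
      let p1 : Cond M I := mix S t r
      let p' : Cond M I := upd p1 j ⟨st, F''.biUnion fun l => (p l j).pr⟩ hleg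
      have hp'j : p' j = ⟨st, F''.biUnion fun l => (p l j).pr⟩ := upd_same p1 j _ hleg
      have hp'S : ∀ i ∈ S, p' i = t i := by
        intro i hi
        have hne : i ≠ j := fun h => hjS (h ▸ hi)
        rw [upd_of_ne p1 _ hleg hne]
        exact mix_mem t r hi
      have hp'o : ∀ i, i ∉ S → i ≠ j → p' i = r i := by
        intro i hi hne
        rw [upd_of_ne p1 _ hleg hne]
        exact mix_notMem t r hi
      have hp'r : le Γ Set.univ p' r := by
        intro i _
        by_cases hi : i ∈ S
        · exact ext_congr i (fun l hl => (hp'S l (hS i hi l hl)).symm) (hp'S i hi).symm rfl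
            (htp i hi)
        · by_cases hij : i = j
          · subst hij
            exact ext_top (hr1 i hjRQ)
          · exact ext_of_eq (hp'o i hi hij)
      refine ⟨insert j Q, hsubQ, hcardQ, F'', hF''.trans hF', ?_, p', fun i hi => ?_,
        fun l hl i hi => ?_⟩
      · calc F.card ≤ 2 ^ n * F'.card := hc
          _ ≤ 2 ^ n * (2 * F''.card) := Nat.mul_le_mul_left _ hcard
          _ = 2 ^ (n + 1) * F''.card := by rw [pow_succ]; ring
      · obtain ⟨hiR, hiQ⟩ := Finset.mem_sdiff.1 hi
        have hij : i ≠ j := fun h => hiQ (h ▸ Finset.mem_insert_self _ _)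
        have hiRQ : i ∈ R \ Q := Finset.mem_sdiff.2
          ⟨hiR, fun h => hiQ (Finset.mem_insert_of_mem h)⟩
        rw [hp'o i (hmin i hiRQ) hij]
        exact hr1 i hiRQ
      · by_cases hij : i = j
        · subst hij
          have hsll : (p l i).stem = s := hsl l (hF'' hl)
          rw [ext_iff, hp'j]
          refine ⟨?_, fun m hm => Finset.mem_biUnion.2 ⟨l, hl, hm⟩, ?_⟩
          · rw [hsll]
            exact hpre
          intro k hk x hx m hm hm' e he t' ht' n hn
          rw [hsll] at hm
          have htt : le Γ S t' t := le_trans' hS ht'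
            (le_congr hS (fun l hl => (hp'S l hl).symm) (fun _ _ => rfl) (le_refl' S t))
          exact hav l hl k hk x hx m hm hm' e he t' htt n hn
        · have h1 : ext Γ i r (p l) := hr2 l (hF'' hl) i fun h =>
            (Finset.mem_insert.1 (hi h)).resolve_left hij
          exact (ext_refl_trans i).2 p' r (p l) (le_mono (Set.subset_univ _) hp'r)
            (hp'r i (Set.mem_univ _)) h1
  obtain ⟨Q, hQR, hQn, F', hF', hc, r, -, hr2⟩ := key R.card le_rfl
  have hQ : Q = R := Finset.eq_of_subset_of_card_le hQR hQn.ge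
  refine ⟨F', hF', hc, r, fun l hl i _ => hr2 l hl i fun h => ?_⟩
  rw [hQ]
  exact h

end Pool.Agent.H631.EV
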