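import Pool.Agent.H631.EV.Forced

/-!
# Bookkeeping: the parameters
-/

set_option autoImplicit false
set_option linter.unusedSectionVars false

namespace Pool.Agent.H631.EV

open Pool.Agent.Helper669.Forcing

/-- the coordinates: `ev k l` functions which evade the slaloms named by the smaller coordinates,
`ck k`, `dl l`, `cc c` Cohen functions -/
inductive Ix (K L C : Type) : Type
  | ev (k : K) (l : L) : Ix K L C
  | ck (k : K) : Ix K L C
  | dl (l : L) : Ix K L C
  | cc (c : C) : Ix K L C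

variable {K L C Λ T : Type} [LinearOrder K] [WellFoundedLT K] [LinearOrder L] [WellFoundedLT L]

/-- the order of the coordinates -/
def Ix.lt : Ix K L C → Ix K L C → Prop
  | .ev k' l', .ev k l => k' < k ∧ l' < l
  | .ck k', .ev k _ => k' < k
  | .dl l', .ev _ l => l' < l
  | .cc _, .ev _ _ => True
  | _, .ck _ => False
  | _, .dl _ => False
  | _, .cc _ => False

theorem Ix.not_lt_ck (i : Ix K L C) (k : K) : ¬ Ix.lt i (.ck k) := by
  cases i <;> exact fun h => h

theorem Ix.not_lt_dl (i : Ix K L C) (l : L) : ¬ Ix.lt i (.dl l) := by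
  cases i <;> exact fun h => h

theorem Ix.not_lt_cc (i : Ix K L C) (c : C) : ¬ Ix.lt i (.cc c) := by
  cases i <;> exact fun h => h

theorem Ix.lt_wf : WellFounded (Ix.lt (K := K) (L := L) (C := C)) := by
  have h1 : ∀ k : K, Acc (Ix.lt (K := K) (L := L) (C := C)) (.ck k) := fun k =>
    ⟨_, fun i hi => absurd hi (Ix.not_lt_ck i k)⟩
  have h2 : ∀ l : L, Acc (Ix.lt (K := K) (L := L) (C := C)) (.dl l) := fun l =>
    ⟨_, fun i hi => absurd hi (Ix.not_lt_dl i l)⟩
  have h3 : ∀ c : C, Acc (Ix.lt (K := K) (L := L) (C := C)) (.cc c) := fun c =>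
    ⟨_, fun i hi => absurd hi (Ix.not_lt_cc i c)⟩
  have h4 : ∀ (k : K) (l : L), Acc (Ix.lt (K := K) (L := L) (C := C)) (.ev k l) := by
    intro k
    induction k using WellFoundedLT.induction with
    | ind k ih =>
      intro l
      refine ⟨_, fun i hi => ?_⟩
      rcases i with ⟨k', l'⟩ | k' | l' | c
      · exact ih k' hi.1 l'
      · exact h1 k'
      · exact h2 l'
      · exact h3 c
  refine ⟨fun i => ?_⟩
  rcases i with ⟨k', l'⟩ | k' | l' | c
  · exact h4 k' l'
  · exact h1 k'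
  · exact h2 l'
  · exact h3 c

theorem Ix.lt_tr (i j k : Ix K L C) (h1 : Ix.lt i j) (h2 : Ix.lt j k) : Ix.lt i k := by
  rcases j with ⟨k', l'⟩ | k' | l' | c
  · rcases k with ⟨k1, l1⟩ | k1 | l1 | c1
    · rcases i with ⟨k2, l2⟩ | k2 | l2 | c2
      · exact ⟨lt_trans h1.1 h2.1, lt_trans h1.2 h2.2⟩
      · exact lt_trans (a := k2) (b := k') (c := k1) h1 h2.1
      · exact lt_trans (a := l2) (b := l') (c := l1) h1 h2.2
      · trivial
    · exact absurd h2 (Ix.not_lt_ck _ _)
    · exact absurd h2 (Ix.not_lt_dl _ _)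
    · exact absurd h2 (Ix.not_lt_cc _ _)
  · exact absurd h1 (Ix.not_lt_ck _ _)
  · exact absurd h1 (Ix.not_lt_dl _ _)
  · exact absurd h1 (Ix.not_lt_cc _ _)

/-- the coordinates smaller than `ev k l` -/
def blw (C : Type) (k : K) (l : L) : Set (Ix K L C) := {i | Ix.lt i (.ev k l)}

open Classical in
/-- the requirements -/
noncomputable def reqB (code : Nm Λ (Ix K L C) → Λ) :
    Ix K L C → Λ → Option (Nm Λ (Ix K L C))
  | .ev k l, a => if h : ∃ X : Nm Λ (Ix K L C), code X = a ∧ Supp (blw C k l) X then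
      some h.choose else none
  | _, _ => none

theorem req_valid {code : Nm Λ (Ix K L C) → Λ} (hcode : Function.Injective code) {k : K} {l : L}
    {X : Nm Λ (Ix K L C)} (h : Supp (blw C k l) X) : reqB code (.ev k l) (code X) = some X := by
  have h1 : ∃ X' : Nm Λ (Ix K L C), code X' = code X ∧ Supp (blw C k l) X' := ⟨X, rfl, h⟩
  simp only [reqB]
  rw [dif_pos h1]
  exact congrArg some (hcode h1.choose_spec.1)

/-- the parameters -/
noncomputable def GB (code : Nm Λ (Ix K L C) → Λ) : Par Λ (Ix K L C) where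
  lt := Ix.lt
  wf := Ix.lt_wf
  tr := Ix.lt_tr
  req := reqB code

/-! ### Bounds -/

theorem bddNat {Ω : Type} [LT Ω] [Infinite T] (hb : ∀ f : T → Ω, ∃ β, ∀ k, f k < β) (g : ℕ → Ω) :
    ∃ β, ∀ n, g n < β := by
  let ι : ℕ ↪ T := Infinite.natEmbedding T
  obtain ⟨β, hβ⟩ := hb fun k => g (Function.invFun ι k)
  refine ⟨β, fun n => ?_⟩
  have := hβ (ι n)
  rwa [Function.leftInverse_invFun ι.injective n] at this

/-- the first index of a coordinate -/
def fst (k0 : K) : Ix K L C → K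
  | .ev k _ => k
  | .ck k => k
  | .dl _ => k0
  | .cc _ => k0

/-- the second index of a coordinate -/
def snd (l0 : L) : Ix K L C → L
  | .ev _ l => l
  | .ck _ => l0
  | .dl l => l
  | .cc _ => l0

theorem mem_blw {k0 : K} {l0 : L} {i : Ix K L C} {k : K} {l : L} (h1 : fst k0 i < k)
    (h2 : snd l0 i < l) : i ∈ blw C k l := by
  rcases i with ⟨k2, l2⟩ | k2 | l2 | c2
  · exact ⟨h1, h2⟩
  · exact h1
  · exact h2
  · trivial

theorem blw_mono {k k' : K} {l l' : L} (hk : k ≤ k') (hl : l ≤ l') :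
    blw C k l ⊆ blw C k' l' := by
  intro i hi
  rcases i with ⟨k2, l2⟩ | k2 | l2 | c2
  · exact ⟨lt_of_lt_of_le hi.1 hk, lt_of_lt_of_le hi.2 hl⟩
  · exact lt_of_lt_of_le (a := k2) (b := k) (c := k') hi hk
  · exact lt_of_lt_of_le (a := l2) (b := l) (c := l') hi hl
  · trivial

theorem supp_bdd [Infinite T] [Nonempty K] [Nonempty L] (hK : ∀ f : T → K, ∃ β, ∀ k, f k < β)
    (hL : ∀ f : T → L, ∃ β, ∀ k, f k < β) (X : Nm Λ (Ix K L C)) :
    ∃ (k : K) (l : L), Supp (blw C k l) X := by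
  classical
  obtain ⟨k0⟩ := ‹Nonempty K›
  obtain ⟨l0⟩ := ‹Nonempty L›
  have h1 : ∀ nm : ℕ × ℕ, ∃ (a : K) (b : L), ∀ u v, X nm.1 nm.2 = some (u, v) →
      ∀ i, u i ≠ CV.top → fst k0 i ≤ a ∧ snd l0 i ≤ b := by
    rintro ⟨n, m⟩
    rcases hx : X n m with _ | ⟨u, v⟩
    · exact ⟨k0, l0, fun u v h => by simp at h⟩
    · obtain ⟨a, ha⟩ := (u.supp.image (fst k0)).exists_le
      obtain ⟨b, hb⟩ := (u.supp.image (snd l0)).exists_le
      refine ⟨a, b, fun u' v' h i hi => ?_⟩
      simp only [Option.some.injEq, Prod.mk.injEq] at h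
      obtain ⟨rfl, rfl⟩ := h
      exact ⟨ha _ (Finset.mem_image_of_mem _ (Cond.mem_supp.2 hi)),
        hb _ (Finset.mem_image_of_mem _ (Cond.mem_supp.2 hi))⟩
  choose a b hab using h1
  obtain ⟨k, hk⟩ := bddNat hK fun n => a (Nat.unpair n)
  obtain ⟨l, hl⟩ := bddNat hL fun n => b (Nat.unpair n)
  refine ⟨k, l, fun n m u v h i hi => ?_⟩
  by_contra hcon
  apply hi
  obtain ⟨h2, h3⟩ := hab (n, m) u v h i hcon
  have h4 := hk (Nat.pair n m)
  have h5 := hl (Nat.pair n m)
  rw [Nat.unpair_pair] at h4 h5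
  exact mem_blw (lt_of_le_of_lt h2 h4) (lt_of_le_of_lt h3 h5)

/-- the coordinates whose second index is less than `l` -/
def Tl (K C : Type) (l : L) : Set (Ix K L C) := fun i => match i with
  | .ev _ l' => l' < l
  | .ck _ => True
  | .dl l' => l' < l
  | .cc _ => True

theorem low_Tl (code : Nm Λ (Ix K L C) → Λ) (l : L) : Low (GB code) (Tl K C l) := by
  intro j hj i hij
  have hij' : Ix.lt i j := hij
  rcases j with ⟨k1, l1⟩ | k1 | l1 | c1
  · have hj' : l1 < l := hj
    rcases i with ⟨k2, l2⟩ | k2 | l2 | c2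
    · show l2 < l
      exact lt_trans hij'.2 hj'
    · trivial
    · show l2 < l
      exact lt_trans (show l2 < l1 from hij') hj'
    · trivial
  · exact absurd hij' (Ix.not_lt_ck _ _)
  · exact absurd hij' (Ix.not_lt_dl _ _)
  · exact absurd hij' (Ix.not_lt_cc _ _)

theorem blw_Tl {k : K} {l l' : L} (h : l ≤ l') : blw C k l ⊆ Tl K C l' := by
  intro i hi
  rcases i with ⟨k2, l2⟩ | k2 | l2 | c2
  · show l2 < l'
    exact lt_of_lt_of_le hi.2 h
  · trivial
  · show l2 < l'
    exact lt_of_lt_of_le (show l2 < l from hi) h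
  · trivial

/-- The forcing theorem, from the parts. -/
theorem forcing_of_card [Uncountable T] [Nonempty K] [Nonempty L]
    (hK : ∀ f : T → K, ∃ β, ∀ k, f k < β) (hL : ∀ f : T → L, ∃ β, ∀ k, f k < β)
    (hKL : ∀ f : K → L, ∃ β, ∀ k, f k < β) (ι : T → C) (hι : Function.Injective ι)
    (hC : ∀ A : K × L → Set C, (∀ l, (A l).Countable) → ∃ c, ∀ l, c ∉ A l)
    (code : Nm Λ (Ix K L C) → Λ) (hcode : Function.Injective code) (p : PP (GB code)) :
    p ∈ PhiHolds (PP (GB code)) T K (K × L) := by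
  have hcc : Function.Injective (fun c : C => (Ix.cc c : Ix K L C)) := fun c c' h => by
    simpa using h
  have hccreq : ∀ (c : C) (a : Λ), (GB code).req (.cc c) a = none := fun _ _ => rfl
  have hsupp : ∀ X : T → Nm Λ (Ix K L C), ∃ (k : K) (l : L), ∀ t, Supp (blw C k l) (X t) := by
    intro X
    choose a b hab using fun t => supp_bdd hK hL (X t)
    obtain ⟨k, hk⟩ := hK a
    obtain ⟨l, hl⟩ := hL b
    exact ⟨k, l, fun t => (hab t).mono (blw_mono (hk t).le (hl t).le)⟩
  refine ⟨?_, ?_, ?_, ?_, ?_, ?_⟩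
  · exact notCaught hcc hccreq ι hι p
  · refine evadeAll (fun X => ?_) p
    obtain ⟨k, l, h⟩ := hsupp X
    exact ⟨.ev k l, fun t => ⟨h t, code (X t), req_valid hcode (h t)⟩⟩
  · refine infEqual (fun k => Ix.ck k) (fun _ _ => rfl) (fun X => ?_) p
    obtain ⟨k, l, h⟩ := supp_bdd hK hL X
    exact ⟨k, below (GB code) (.ev k l), low_below _, fun h => lt_irrefl k h, h⟩
  · refine meetAll (fun X => ?_) p
    choose a b hab using fun t => supp_bdd hK hL (X t)
    obtain ⟨l, hl⟩ := hKL b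
    exact ⟨.dl l, Tl K C l, fun _ => rfl, low_Tl code l, fun h => lt_irrefl l h,
      fun k => (hab k).mono (blw_Tl (hl k).le)⟩
  · refine evading (fun z : K × L => Ix.ev z.1 z.2) (fun X => ?_) p
    obtain ⟨k, l, h⟩ := supp_bdd hK hL X
    exact ⟨(k, l), h, code X, req_valid hcode h⟩
  · exact escape hcc hccreq hC p

end Pool.Agent.H631.EV
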