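import Mathlib
import Pool.Agent.H631.EV.Basic

/-!
# Choosing values which avoid most of the forbidden sets
-/

set_option autoImplicit false

namespace Pool.Agent.H631.EV

open Classical

theorem choose_one {ι : Type} (F : Finset ι) (B : ι → Finset ℕ) (m b : ℕ) (hb : 0 < b)
    (hB : ∀ l ∈ F, (B l).card ≤ m) :
    ∃ v < b, (F.filter fun l => v ∈ B l).card * b ≤ F.card * m := by
  by_contra hcon
  push Not at hcon
  have h1 : ∑ v ∈ Finset.range b, (F.filter fun l => v ∈ B l).card ≤ F.card * m := by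
    have h2 : ∑ v ∈ Finset.range b, (F.filter fun l => v ∈ B l).card =
        ∑ l ∈ F, ((Finset.range b).filter fun v => v ∈ B l).card := by
      simp only [Finset.card_filter]
      exact Finset.sum_comm
    rw [h2, ← smul_eq_mul, ← Finset.sum_const]
    refine Finset.sum_le_sum fun l hl => ?_
    refine le_trans (Finset.card_le_card fun v hv => ?_) (hB l hl)
    exact (Finset.mem_filter.1 hv).2
  have h3 : ∑ _v ∈ Finset.range b, F.card * m <
      ∑ v ∈ Finset.range b, (F.filter fun l => v ∈ B l).card * b :=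
    Finset.sum_lt_sum_of_nonempty (Finset.nonempty_range_iff.2 hb.ne')
      fun v hv => hcon v (Finset.mem_range.1 hv)
  rw [Finset.sum_const, Finset.card_range, smul_eq_mul, ← Finset.sum_mul, mul_comm _ b] at h3
  exact absurd (lt_of_mul_lt_mul_left h3 (Nat.zero_le b)) (not_lt.2 h1)

theorem small_aux (n : ℕ) : n * (n + 1) * 2 ^ (n + 2) ≤ 16 ^ (n + 1) := by
  have h1 : n < 2 ^ n := Nat.lt_two_pow_self
  have h2 : n + 1 ≤ 2 ^ n := h1
  calc n * (n + 1) * 2 ^ (n + 2) ≤ 2 ^ n * 2 ^ n * 2 ^ (n + 2) :=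
        Nat.mul_le_mul_right _ (Nat.mul_le_mul h1.le h2)
    _ = 2 ^ (3 * n + 2) := by rw [← pow_add, ← pow_add]; congr 1; ring
    _ ≤ 2 ^ (4 * (n + 1)) := Nat.pow_le_pow_right (by norm_num) (by omega)
    _ = 16 ^ (n + 1) := by rw [pow_mul]; norm_num

theorem multi {ι : Type} (k : ℕ) (F : Finset ι) (B : ι → ℕ → Finset ℕ)
    (hB : ∀ l ∈ F, ∀ i, k ≤ i → (B l i).card ≤ k * (i + 1)) (N : ℕ) (hN : k ≤ N) :
    ∃ v : ℕ → ℕ, (∀ i, v i < bb i) ∧ ∃ F' ⊆ F, F.card * (2 ^ N + 1) ≤ F'.card * 2 ^ (N + 1) ∧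
      ∀ l ∈ F', ∀ i, k ≤ i → i < N → v i ∉ B l i := by
  induction N, hN using Nat.le_induction with
  | base =>
    refine ⟨fun _ => 0, fun i => bb_pos i, F, Finset.Subset.refl _, ?_, fun l _ i h1 h2 => ?_⟩
    · apply Nat.mul_le_mul_left
      have : 1 ≤ 2 ^ k := Nat.one_le_two_pow
      rw [pow_succ]
      omega
    · omega
  | succ N hN ih =>
    obtain ⟨v, hv, F', hF', hc, hav⟩ := ih
    obtain ⟨w, hw, hwc⟩ := choose_one F' (fun l => B l N) (k * (N + 1)) (bb N) (bb_pos N)
      fun l hl => hB l (hF' hl) N hN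
    refine ⟨fun i => if i = N then w else v i, fun i => ?_, F'.filter fun l => w ∉ B l N,
      (Finset.filter_subset _ _).trans hF', ?_, ?_⟩
    · show (if i = N then w else v i) < bb i
      split_ifs with h
      · rw [h]
        exact hw
      · exact hv i
    · have h1 : (F'.filter fun l => w ∈ B l N).card + (F'.filter fun l => w ∉ B l N).card =
          F'.card := Finset.card_filter_add_card_filter_not _
      set a := (F'.filter fun l => w ∈ B l N).card
      set c := (F'.filter fun l => w ∉ B l N).card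
      have h2 : a * 2 ^ (N + 2) ≤ F.card := by
        have h3 : a * 2 ^ (N + 2) * bb N ≤ F.card * bb N := by
          calc a * 2 ^ (N + 2) * bb N = a * bb N * 2 ^ (N + 2) := by ring
            _ ≤ F'.card * (k * (N + 1)) * 2 ^ (N + 2) := Nat.mul_le_mul_right _ hwc
            _ ≤ F.card * (N * (N + 1)) * 2 ^ (N + 2) :=
              Nat.mul_le_mul_right _ (Nat.mul_le_mul (Finset.card_le_card hF')
                (Nat.mul_le_mul_right _ hN))
            _ = F.card * (N * (N + 1) * 2 ^ (N + 2)) := by ring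
            _ ≤ F.card * bb N := Nat.mul_le_mul_left _ (small_aux N)
        exact Nat.le_of_mul_le_mul_right h3 (bb_pos N)
      have h4 : F'.card * 2 ^ (N + 1) * 2 = (a + c) * 2 ^ (N + 2) := by
        rw [h1, pow_succ 2 (N + 1)]
        ring
      have h5 : F.card * (2 ^ N + 1) * 2 = F.card * (2 ^ (N + 1) + 1) + F.card := by
        rw [pow_succ]
        ring
      have h6 : c * 2 ^ (N + 1 + 1) = c * 2 ^ (N + 2) := rfl
      rw [h6]
      have h7 : (a + c) * 2 ^ (N + 2) = a * 2 ^ (N + 2) + c * 2 ^ (N + 2) := by ring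
      rw [h7] at h4
      have h8 := Nat.mul_le_mul_right 2 hc
      omega
    · intro l hl i hi hiN
      rw [Finset.mem_filter] at hl
      show (if i = N then w else v i) ∉ B l i
      split_ifs with h
      · rw [h]
        exact hl.2
      · exact hav l hl.1 i hi (by omega)

theorem multi' {ι : Type} (k : ℕ) (F : Finset ι) (B : ι → ℕ → Finset ℕ)
    (hB : ∀ l ∈ F, ∀ i, k ≤ i → (B l i).card ≤ k * (i + 1)) (N : ℕ) (hN : k ≤ N) :
    ∃ v : ℕ → ℕ, (∀ i, v i < bb i) ∧ ∃ F' ⊆ F, F.card ≤ 2 * F'.card ∧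
      ∀ l ∈ F', ∀ i, k ≤ i → i < N → v i ∉ B l i := by
  obtain ⟨v, hv, F', hF', hc, h⟩ := multi k F B hB N hN
  refine ⟨v, hv, F', hF', ?_, h⟩
  have h1 : F.card * 2 ^ N ≤ 2 * F'.card * 2 ^ N := by
    calc F.card * 2 ^ N ≤ F.card * (2 ^ N + 1) := Nat.mul_le_mul_left _ (Nat.le_succ _)
      _ ≤ F'.card * 2 ^ (N + 1) := hc
      _ = 2 * F'.card * 2 ^ N := by rw [pow_succ]; ring
  exact Nat.le_of_mul_le_mul_right h1 (by positivity)

end Pool.Agent.H631.EV
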