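import Pool.Agent.H631.EV.Basic
import Pool.Graph.R_seed8.Helper669.Forcing

/-!
# The preorder of the conditions, the sentence which is forced
-/

set_option autoImplicit false
set_option linter.unusedSectionVars false

namespace Pool.Agent.H631.EV

open Classical Pool.Agent.Helper669.Forcing

/-! ### The combinatorial statement -/

/-- There is a family of functions `y k`, `k : K`, such that for every function `x` some `y k` is
infinitely often equal to `x` (modulo the bounds). -/
def InfEqual (K : Type) : Prop :=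
  ∃ y : K → ℕ → ℕ, ∀ x : ℕ → ℕ, ∃ k, ∀ N, ∃ n, N ≤ n ∧ ∃ v, x n = v ∧ y k n = v % bb n

/-- For every family of functions `x k`, `k : K`, some function `d` is infinitely often equal to
every `x k` (modulo the bounds). -/
def MeetAll (K : Type) : Prop :=
  ∀ x : K → ℕ → ℕ, ∃ d : ℕ → ℕ, ∀ k, ∀ N, ∃ n, N ≤ n ∧ ∃ v, x k n = v ∧ d n = v % bb n

/-- For every family of slaloms `n ↦ {ψ t (n, i) | i ≤ n}`, `t : T`, some function `x` evades all
of them. -/
def EvadeAll (T : Type) : Prop :=
  ∀ ψ : T → ℕ → ℕ, ∃ x : ℕ → ℕ, ∀ t, ∃ N, ∀ n, N ≤ n → ∀ i, i ≤ n →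
    ¬ ∃ v, x n = v ∧ ψ t (Nat.pair n i) = v % bb n

/-- There is a family of functions `x l`, `l : L`, such that every slalom is evaded by some
`x l`. -/
def Evading (L : Type) : Prop :=
  ∃ x : L → ℕ → ℕ, ∀ ψ : ℕ → ℕ, ∃ l, ∃ N, ∀ n, N ≤ n → ∀ i, i ≤ n →
    ¬ ∃ v, x l n = v ∧ ψ (Nat.pair n i) = v % bb n

/-- There is a family of functions `φ t`, `t : T`, such that no slalom captures all of them. -/
def NotCaught (T : Type) : Prop :=
  ∃ φ : T → ℕ → ℕ, ∀ ψ : ℕ → ℕ, ∃ t, ∀ N, ∃ n, N ≤ n ∧ ∀ i, i ≤ n →
    ¬ ∃ v, φ t n = v ∧ ψ (Nat.pair n i) = v % bb n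

/-- For every family of slaloms, indexed by `L`, some function is not captured by any of them. -/
def Escape (L : Type) : Prop :=
  ∀ ψ : L → ℕ → ℕ, ∃ φ : ℕ → ℕ, ∀ l, ∀ N, ∃ n, N ≤ n ∧ ∀ i, i ≤ n →
    ¬ ∃ v, φ n = v ∧ ψ l (Nat.pair n i) = v % bb n

/-- The combinatorial statement which is forced. -/
def PhiFor (T K L : Type) : Prop :=
  NotCaught T ∧ EvadeAll T ∧ InfEqual K ∧ MeetAll K ∧ Evading L ∧ Escape L

/-! ### The sentence of the forcing language -/

section Sentence

/-- Forcing version of `InfEqual`; functions are given by names of their graphs. -/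
def InfEqualN (P : Type) [Preorder P] (K : Type) : Set P :=
  fex fun y : K → ℕ → ℕ → Set P => fand (fall fun k => IsFun (y k))
    (fall fun x : ℕ → ℕ → Set P => fimp (IsFun x)
      (fex fun k => fall fun N => fex fun n => fand (fground (N ≤ n))
        (fex fun v => fand (meets (x n v)) (meets (y k n (v % bb n))))))

/-- Forcing version of `MeetAll`. -/
def MeetAllN (P : Type) [Preorder P] (K : Type) : Set P :=
  fall fun x : K → ℕ → ℕ → Set P => fimp (fall fun k => IsFun (x k))
    (fex fun d : ℕ → ℕ → Set P => fand (IsFun d)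
      (fall fun k => fall fun N => fex fun n => fand (fground (N ≤ n))
        (fex fun v => fand (meets (x k n v)) (meets (d n (v % bb n))))))

/-- Forcing version of `EvadeAll`. -/
def EvadeAllN (P : Type) [Preorder P] (T : Type) : Set P :=
  fall fun ψ : T → ℕ → ℕ → Set P => fimp (fall fun t => IsFun (ψ t))
    (fex fun x : ℕ → ℕ → Set P => fand (IsFun x)
      (fall fun t => fex fun N => fall fun n => fimp (fground (N ≤ n)) (fall fun i =>
        fimp (fground (i ≤ n))
          (fnot (fex fun v => fand (meets (x n v)) (meets (ψ t (Nat.pair n i) (v % bb n))))))))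

/-- Forcing version of `Evading`. -/
def EvadingN (P : Type) [Preorder P] (L : Type) : Set P :=
  fex fun x : L → ℕ → ℕ → Set P => fand (fall fun l => IsFun (x l))
    (fall fun ψ : ℕ → ℕ → Set P => fimp (IsFun ψ)
      (fex fun l => fex fun N => fall fun n => fimp (fground (N ≤ n)) (fall fun i =>
        fimp (fground (i ≤ n))
          (fnot (fex fun v => fand (meets (x l n v)) (meets (ψ (Nat.pair n i) (v % bb n))))))))

/-- Forcing version of `NotCaught`. -/
def NotCaughtN (P : Type) [Preorder P] (T : Type) : Set P :=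
  fex fun φ : T → ℕ → ℕ → Set P => fand (fall fun t => IsFun (φ t))
    (fall fun ψ : ℕ → ℕ → Set P => fimp (IsFun ψ)
      (fex fun t => fall fun N => fex fun n => fand (fground (N ≤ n)) (fall fun i =>
        fimp (fground (i ≤ n))
          (fnot (fex fun v => fand (meets (φ t n v)) (meets (ψ (Nat.pair n i) (v % bb n))))))))

/-- Forcing version of `Escape`. -/
def EscapeN (P : Type) [Preorder P] (L : Type) : Set P :=
  fall fun ψ : L → ℕ → ℕ → Set P => fimp (fall fun l => IsFun (ψ l))
    (fex fun φ : ℕ → ℕ → Set P => fand (IsFun φ)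
      (fall fun l => fall fun N => fex fun n => fand (fground (N ≤ n)) (fall fun i =>
        fimp (fground (i ≤ n))
          (fnot (fex fun v => fand (meets (φ n v)) (meets (ψ l (Nat.pair n i) (v % bb n))))))))

/-- The sentence `PhiFor T K L` of the forcing language. -/
def PhiHolds (P : Type) [Preorder P] (T K L : Type) : Set P :=
  fand (NotCaughtN P T) (fand (EvadeAllN P T) (fand (InfEqualN P K) (fand (MeetAllN P K)
    (fand (EvadingN P L) (EscapeN P L)))))

end Sentence

/-! ### The preorder of the conditions -/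

variable {M I : Type}

/-- the conditions, with the order given by the parameters -/
def PP (_Γ : Par M I) : Type := Cond M I

variable {Γ : Par M I}

/-- an element of `PP Γ` as a condition -/
abbrev PP.toC (r : PP Γ) : Cond M I := r

noncomputable instance : Preorder (PP Γ) where
  le q p := le Γ Set.univ q p
  le_refl p := le_refl' Set.univ p
  le_trans _ _ _ h1 h2 := le_trans' low_univ h1 h2

theorem PP.le_def {q p : PP Γ} : q ≤ p ↔ le Γ Set.univ q p := Iff.rfl

/-- the countable chain condition -/
def CCC (Γ : Par M I) : Prop :=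
  ∀ A : Set (Cond M I), ¬ A.Countable → ∃ p ∈ A, ∃ q ∈ A, p ≠ q ∧
    ∃ r, le Γ Set.univ r p ∧ le Γ Set.univ r q

end Pool.Agent.H631.EV
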