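import Pool.Agent.H631.EV.Amalg
import Pool.Agent.H631.EV.Frame
import Pool.Graph.R_seed8.Helper126.Fact

/-!
# Uncountable families of conditions, and the countable chain condition
-/

set_option autoImplicit false
set_option linter.unusedSectionVars false

namespace Pool.Agent.H631.EV

open Classical

variable {M I : Type} {Γ : Par M I}

theorem uncountable_fiber {α β : Type} [Countable β] {A : Set α} (hA : ¬ A.Countable)
    (g : α → β) : ∃ b, ¬ {a ∈ A | g a = b}.Countable := by
  by_contra hcon
  push Not at hcon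
  apply hA
  refine (Set.countable_iUnion hcon).mono fun a ha => ?_
  exact Set.mem_iUnion.2 ⟨g a, ha, rfl⟩

theorem fanset {α : Type} {A : Set α} (hA : ¬ A.Countable) (p : α → Cond M I) :
    ∃ (A' : Set α) (R : Finset I), A' ⊆ A ∧ ¬ A'.Countable ∧
      (∀ a ∈ A', ∀ b ∈ A', a ≠ b → ∀ i ∉ R, p a i = CV.top ∨ p b i = CV.top) ∧
      ∀ a ∈ A', ∀ b ∈ A', ∀ i ∈ R, (p a i).stem = (p b i).stem := by
  obtain ⟨A1, R, hA1A, hA1, -, hd1⟩ := Helper126.delta_system (fun a => (p a).supp) A hA
  obtain ⟨st, hA2⟩ := uncountable_fiber hA1 (fun a => fun j : R => (p a j.1).stem)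
  refine ⟨{a ∈ A1 | (fun j : R => (p a j.1).stem) = st}, R, fun a ha => hA1A ha.1, hA2,
    ?_, ?_⟩
  · intro a ha b hb hab i hi
    by_contra hcon
    push Not at hcon
    exact hi (hd1 a ha.1 b hb.1 hab i (Cond.mem_supp.2 hcon.1) (Cond.mem_supp.2 hcon.2))
  · intro a ha b hb j hj
    exact (congrFun ha.2 ⟨j, hj⟩).trans (congrFun hb.2 ⟨j, hj⟩).symm

theorem ccc : CCC Γ := by
  intro A hA
  obtain ⟨A', R, hA'A, hA', h1, h2⟩ := fanset hA (fun p : Cond M I => p)
  have hinf : A'.Infinite := fun h => hA' h.countable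
  obtain ⟨F, hF, hFc⟩ := hinf.exists_subset_card_eq (2 ^ R.card + 1)
  obtain ⟨F', hF', hc, r, hr⟩ := merge Γ F (fun p : Cond M I => p) R
    (fun l hl l' hl' => h1 l (hF hl) l' (hF hl'))
    (fun l hl l' hl' => h2 l (hF hl) l' (hF hl'))
  have h3 : 1 < F'.card := by
    by_contra hcon
    push Not at hcon
    rw [hFc] at hc
    have h4 : 2 ^ R.card * F'.card ≤ 2 ^ R.card * 1 := Nat.mul_le_mul_left _ hcon
    omega
  obtain ⟨a, ha, b, hb, hab⟩ := Finset.one_lt_card.1 h3
  exact ⟨a, hA'A (hF (hF' ha)), b, hA'A (hF (hF' hb)), hab, r, hr a ha, hr b hb⟩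

theorem big_aux (n : ℕ) : (n + 2) * n ≤ bb n := by
  have h1 : n < 2 ^ n := Nat.lt_two_pow_self
  have h2 : n + 2 ≤ 2 ^ (n + 1) := by
    have : n + 1 < 2 ^ (n + 1) := Nat.lt_two_pow_self
    omega
  calc (n + 2) * n ≤ 2 ^ (n + 1) * 2 ^ n := Nat.mul_le_mul h2 h1.le
    _ = 2 ^ (2 * n + 1) := by rw [← pow_add]; congr 1; ring
    _ ≤ 2 ^ (4 * (n + 1)) := Nat.pow_le_pow_right (by norm_num) (by omega)
    _ = 16 ^ (n + 1) := by rw [pow_mul]; norm_num

/-- Only countably many Cohen functions can be captured. -/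
theorem caught {C : Type} (lc : C → I) (hinj : Function.Injective lc)
    (hreq : ∀ c k, Γ.req (lc c) k = none) (X : Nm M I) (A : Set C) (N : C → ℕ)
    (p : C → Cond M I)
    (h : ∀ c ∈ A, ∀ s, le Γ Set.univ s (p c) → ∀ n, N c ≤ n → n < (s (lc c)).stem.length →
      ¬ ∀ e ≤ n, ∃ w, Val (le Γ Set.univ) s X (Nat.pair n e) w ∧
        (s (lc c)).stem.getD n 0 ≠ w) : A.Countable := by
  by_contra hA
  choose p1 hp1 hlen1 _ _ using fun c => ext_long Γ (lc c) 1 (p c)
  obtain ⟨⟨N0, L0⟩, hA1⟩ := uncountable_fiber hA fun c => (N c, (p1 c (lc c)).stem.length)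
  obtain ⟨A', R, hA'A, hA', h1, h2⟩ := fanset hA1 p1
  have hA2 : (A' \ {c | lc c ∈ R}).Infinite := by
    intro hfin
    apply hA'
    have hfin2 : {l | lc l ∈ R}.Finite :=
      Set.Finite.preimage (hinj.injOn) (Finset.finite_toSet R)
    refine (hfin.union hfin2).countable.mono fun a ha => ?_
    by_cases hb : lc a ∈ R
    · exact Or.inr hb
    · exact Or.inl ⟨ha, hb⟩
  set m := 2 ^ R.card with hm
  set n := max (max N0 L0) m with hn
  obtain ⟨F, hF, hFc⟩ := hA2.exists_subset_card_eq ((n + 2) * m)
  have hFb : F.card ≤ bb n := by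
    rw [hFc]
    exact (Nat.mul_le_mul_left _ (le_max_right _ _)).trans (big_aux n)
  obtain ⟨idx, hidx, hidx2⟩ : ∃ f : C → ℕ, Set.InjOn f F ∧ ∀ c ∈ F, f c < F.card := by
    refine ⟨fun c => if h : c ∈ F then (F.equivFin ⟨c, h⟩).val else 0, ?_, ?_⟩
    · intro a ha b hb hab
      have ha' : a ∈ F := ha
      have hb' : b ∈ F := hb
      simp only [dif_pos ha', dif_pos hb'] at hab
      have := F.equivFin.injective (Fin.ext hab)
      exact congrArg Subtype.val this
    · intro c hc
      simp only [dif_pos hc]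
      exact (F.equivFin ⟨c, hc⟩).isLt
  have hFprop : ∀ c ∈ F, c ∈ A ∧ N c = N0 ∧ (p1 c (lc c)).stem.length = L0 ∧ lc c ∉ R ∧
      c ∈ A' := by
    intro c hc
    have h3 := hF hc
    have h4 := hA'A h3.1
    have h5 : (N c, (p1 c (lc c)).stem.length) = (N0, L0) := h4.2
    exact ⟨h4.1, (Prod.mk.inj h5).1, (Prod.mk.inj h5).2, h3.2, h3.1⟩
  have hex : ∀ c, ∃ q : Cond M I, c ∈ F → le Γ Set.univ q (p1 c) ∧
      (∀ i, i ≠ lc c → q i = p1 c i) ∧ n < (q (lc c)).stem.length ∧
      (q (lc c)).stem.getD n 0 = idx c := by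
    intro c
    by_cases hc : c ∈ F
    · obtain ⟨-, -, hL, -, -⟩ := hFprop c hc
      have hLn : L0 ≤ n := (le_max_right _ _).trans (le_max_left _ _)
      have hlen0 : ((p1 c (lc c)).stem ++ List.replicate (n - L0) 0).length = n := by
        rw [List.length_append, List.length_replicate, hL]
        omega
      have hleg : Legit (⟨((p1 c (lc c)).stem ++ List.replicate (n - L0) 0) ++ [idx c],
          (p1 c (lc c)).pr⟩ : CV M) := by
        have hl := (p1 c).legit (lc c)
        refine ⟨?_, fun i hi => ?_⟩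
        · show (p1 c (lc c)).pr.card ≤ _
          refine hl.1.trans ?_
          simp only [List.length_append]
          omega
        · have hi' : i < n + 1 := by
            have h3 : i < (((p1 c (lc c)).stem ++ List.replicate (n - L0) 0) ++
              [idx c]).length := hi
            rw [List.length_append, hlen0] at h3
            exact h3
          show (((p1 c (lc c)).stem ++ List.replicate (n - L0) 0) ++ [idx c]).getD i 0 < bb i
          by_cases h3 : i < n
          · rw [List.getD_append _ _ _ _ (by rw [hlen0]; exact h3)]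
            by_cases h4 : i < L0
            · rw [List.getD_append _ _ _ _ (by rw [hL]; exact h4)]
              exact hl.2 i (by rw [hL]; exact h4)
            · rw [List.getD_append_right _ _ _ _ (by rw [hL]; exact not_lt.1 h4)]
              have h5 : (List.replicate (n - L0) 0).getD (i - (p1 c (lc c)).stem.length) 0 = 0 := by
                rw [List.getD_eq_getElem _ _ (by rw [List.length_replicate, hL]; omega)]
                simp
              rw [h5]
              exact bb_pos i
          · have h4 : i = n := by omega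
            subst h4
            rw [List.getD_append_right _ _ _ _ (by rw [hlen0]), hlen0]
            simp only [Nat.sub_self, List.getD_cons_zero]
            exact lt_of_lt_of_le (hidx2 c hc) hFb
      refine ⟨upd (p1 c) (lc c) _ hleg, fun _ => ⟨fun i _ => ?_, fun i hi => upd_of_ne _ _ _ hi,
        ?_, ?_⟩⟩
      · by_cases hi : i = lc c
        · subst hi
          refine ext_noreq (hreq c) ?_ (by rw [upd_same])
          rw [upd_same, List.append_assoc]
          exact List.prefix_append _ _
        · exact ext_of_eq (upd_of_ne _ _ _ hi)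
      · rw [upd_same]
        show n < (((p1 c (lc c)).stem ++ List.replicate (n - L0) 0) ++ [idx c]).length
        rw [List.length_append, hlen0]
        simp
      · rw [upd_same]
        show (((p1 c (lc c)).stem ++ List.replicate (n - L0) 0) ++ [idx c]).getD n 0 = idx c
        rw [List.getD_append_right _ _ _ _ hlen0.le, hlen0]
        simp
    · exact ⟨Cond.one, fun h => absurd h hc⟩
  choose q hq using hex
  obtain ⟨F', hF', hcard, r, hr⟩ := merge Γ F q R
    (by
      intro l hl l' hl' hne i hi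
      obtain ⟨-, hq2, -, -⟩ := hq l hl
      obtain ⟨-, hq2', -, -⟩ := hq l' hl'
      obtain ⟨-, -, hL, -, hlA⟩ := hFprop l hl
      obtain ⟨-, -, hL', -, hlA'⟩ := hFprop l' hl'
      have hne2 : lc l ≠ lc l' := fun h => hne (hinj h)
      have h3 := h1 l hlA l' hlA' hne i hi
      have htop : ∀ c, p1 c (lc c) ≠ CV.top := by
        intro c h
        have := hlen1 c
        rw [h] at this
        simp at this
      by_cases hi1 : i = lc l
      · subst hi1
        refine Or.inr ?_
        rw [hq2' _ hne2]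
        exact h3.resolve_left (htop l)
      · by_cases hi2 : i = lc l'
        · subst hi2
          refine Or.inl ?_
          rw [hq2 _ hi1]
          exact h3.resolve_right (htop l')
        · rw [hq2 i hi1, hq2' i hi2]
          exact h3)
    (by
      intro l hl l' hl' i hi
      obtain ⟨-, hq2, -, -⟩ := hq l hl
      obtain ⟨-, hq2', -, -⟩ := hq l' hl'
      obtain ⟨-, -, -, hR, hlA⟩ := hFprop l hl
      obtain ⟨-, -, -, hR', hlA'⟩ := hFprop l' hl'
      rw [hq2 i (fun h => hR (h ▸ hi)), hq2' i (fun h => hR' (h ▸ hi))]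
      exact h2 l hlA l' hlA' i hi)
  have hF'c : n + 2 ≤ F'.card := by
    rw [hFc, ← hm, mul_comm] at hcard
    exact Nat.le_of_mul_le_mul_left hcard (by positivity)
  obtain ⟨r', hr', hdec⟩ := Val.decideF (Γ := Γ) low_univ (Finset.range (n + 1))
    (fun _ => X) (fun e => Nat.pair n e) r
  have hdec' : ∀ e, ∃ w, e ≤ n → Val (le Γ Set.univ) r' X (Nat.pair n e) w := by
    intro e
    by_cases he : e ≤ n
    · obtain ⟨w, hw⟩ := hdec e (Finset.mem_range.2 (by omega))
      exact ⟨w, fun _ => hw⟩
    · exact ⟨0, fun h => absurd h he⟩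
  choose w hw using hdec'
  have hlt : ((Finset.range (n + 1)).image w).card < (F'.image idx).card := by
    rw [Finset.card_image_of_injOn (hidx.mono (by exact_mod_cast hF'))]
    exact (Finset.card_image_le.trans (by rw [Finset.card_range])).trans_lt hF'c
  obtain ⟨a, ha, ha'⟩ := Finset.exists_mem_notMem_of_card_lt_card hlt
  obtain ⟨c, hc, rfl⟩ := Finset.mem_image.1 ha
  obtain ⟨hq1, -, hq3, hq4⟩ := hq c (hF' hc)
  obtain ⟨hcA, hcN, -, -, -⟩ := hFprop c (hF' hc)
  have hrq : le Γ Set.univ r' (q c) := le_trans' low_univ hr' (hr c hc)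
  have hpre := ext_stem (hrq (lc c) (Set.mem_univ _))
  have hlen : n < (r' (lc c)).stem.length := lt_of_lt_of_le hq3 hpre.length_le
  refine h c hcA r' (le_trans' low_univ hrq (le_trans' low_univ hq1 (hp1 c))) n
    (by rw [hcN]; exact (le_max_left _ _).trans (le_max_left _ _)) hlen fun e he => ?_
  refine ⟨w e, hw e he, ?_⟩
  rw [getD_prefix hpre hq3, hq4]
  intro h3
  exact ha' (Finset.mem_image.2 ⟨e, Finset.mem_range.2 (by omega), h3.symm⟩)

end Pool.Agent.H631.EV
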