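import Pool.Agent.H631.EV.Fan
import Pool.Agent.H631.EV.Raw

/-!
# The statements which are forced
-/

set_option autoImplicit false
set_option linter.unusedSectionVars false

namespace Pool.Agent.H631.EV

open Classical Pool.Agent.Helper669.Forcing

variable {M I : Type} {Γ : Par M I}

theorem getD_eq_of_common {a b c : Cond M I} {j : I} {n : ℕ} (h1 : le Γ Set.univ c a)
    (h2 : le Γ Set.univ c b) (ha : n < (a j).stem.length) (hb : n < (b j).stem.length) :
    (a j).stem.getD n 0 = (b j).stem.getD n 0 := by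
  rw [← getD_prefix (ext_stem (h1 j (Set.mem_univ _))) ha,
    ← getD_prefix (ext_stem (h2 j (Set.mem_univ _))) hb]

theorem length_le {a c : Cond M I} (j : I) (h : le Γ Set.univ c a) :
    (a j).stem.length ≤ (c j).stem.length := (ext_stem (h j (Set.mem_univ _))).length_le

/-- the name of the generic function with the coordinate `j` -/
def coh (Γ : Par M I) (j : I) : ℕ → ℕ → Set (PP Γ) := fun n b =>
  {r | n < (PP.toC r j).stem.length ∧ (PP.toC r j).stem.getD n 0 = b}

theorem coh_isFun (j : I) (p : PP Γ) : p ∈ IsFun (coh Γ j) := by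
  refine ⟨fun n => ?_, fun n v v' => ?_⟩
  · refine mem_fex.2 fun r hr => ?_
    obtain ⟨r', hr', hlen, -⟩ := ext_long Γ j (n + 1) (PP.toC r)
    refine ⟨(r' : PP Γ), hr', (r' j).stem.getD n 0, ?_⟩
    exact meets_of_mem (P := PP Γ) (N := coh Γ j n _) (p := r') ⟨hlen, rfl⟩
  · refine mem_fimp.2 fun r hr h => ⟨r, le_rfl, ?_⟩
    obtain ⟨s, hs, z, hz, hsz⟩ := h.1 r le_rfl
    obtain ⟨s', hs', z', hz', hsz'⟩ := h.2 s hs
    have h1 : le Γ Set.univ (PP.toC s') (PP.toC z) := hs'.trans hsz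
    have h2 : le Γ Set.univ (PP.toC s') (PP.toC z') := hsz'
    show v = v'
    rw [← hz.2, ← hz'.2, getD_eq_of_common h1 h2 hz.1 hz'.1]

/-- `X` is a raw name for the function named by `x`, below `q` -/
def RawOf (Γ : Par M I) (q : PP Γ) (X : Nm M I) (x : ℕ → ℕ → Set (PP Γ)) : Prop :=
  ∀ q' : PP Γ, q' ≤ q → ∀ n v, Val (le Γ Set.univ) q' X n v → q' ∈ meets (x n v)

theorem RawOf.mono {q q1 : PP Γ} {X : Nm M I} {x : ℕ → ℕ → Set (PP Γ)} (h : RawOf Γ q X x)
    (hq : q1 ≤ q) : RawOf Γ q1 X x := fun q' hq' n v hv => h q' (hq'.trans hq) n v hv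

theorem exists_raw {x : ℕ → ℕ → Set (PP Γ)} {q : PP Γ} (hq : q ∈ IsFun x) :
    ∃ X : Nm M I, RawOf Γ q X x := rawF ccc x q hq

/-- a Cohen function outside a lower set is infinitely often equal to the functions named in the
lower set -/
theorem meetInf {c : I} (hreq : ∀ k, Γ.req c k = none) {T : Set I} (hT : Low Γ T) (hc : c ∉ T)
    {X : Nm M I} (hX : Supp T X) {x : ℕ → ℕ → Set (PP Γ)} {q : PP Γ} (hq : RawOf Γ q X x) :
    q ∈ fall fun N => fex fun n => fand (fground (N ≤ n))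
      (fex fun v => fand (meets (x n v)) (meets (coh Γ c n (v % bb n)))) := by
  intro N
  refine mem_fex.2 fun r hr => ?_
  set L := ((PP.toC r) c).stem.length with hL
  obtain ⟨t, ht, v, hv⟩ := Val.dense (Γ := Γ) hT (PP.toC r) X (max N L)
  set n := max N L with hn
  have hLn : L ≤ n := le_max_right _ _
  let r1 : Cond M I := mix T t (PP.toC r)
  have hr1 : le Γ Set.univ r1 (PP.toC r) := mix_le hT ht
  have hr1c : r1 c = (PP.toC r) c := mix_notMem _ _ hc
  have hlen0 : ((r1 c).stem ++ List.replicate (n - L) 0).length = n := by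
    rw [List.length_append, List.length_replicate, hr1c, ← hL]
    omega
  have hleg : Legit (⟨((r1 c).stem ++ List.replicate (n - L) 0) ++ [v % bb n],
      (r1 c).pr⟩ : CV M) := by
    have hl := r1.legit c
    have hlL : (r1 c).stem.length = L := by rw [hr1c]
    refine ⟨?_, fun i hi => ?_⟩
    · show (r1 c).pr.card ≤ _
      refine hl.1.trans ?_
      simp only [List.length_append]
      omega
    · have hi' : i < n + 1 := by
        have h3 : i < (((r1 c).stem ++ List.replicate (n - L) 0) ++ [v % bb n]).length := hi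
        rw [List.length_append, hlen0] at h3
        exact h3
      show (((r1 c).stem ++ List.replicate (n - L) 0) ++ [v % bb n]).getD i 0 < bb i
      by_cases h3 : i < n
      · rw [List.getD_append _ _ _ _ (by rw [hlen0]; exact h3)]
        by_cases h4 : i < L
        · rw [List.getD_append _ _ _ _ (by rw [hlL]; exact h4)]
          exact hl.2 i (by rw [hlL]; exact h4)
        · rw [List.getD_append_right _ _ _ _ (by rw [hlL]; exact not_lt.1 h4)]
          have h5 : (List.replicate (n - L) 0).getD (i - (r1 c).stem.length) 0 = 0 := by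
            rw [List.getD_eq_getElem _ _ (by rw [List.length_replicate, hlL]; omega)]
            simp
          rw [h5]
          exact bb_pos i
      · have h4 : i = n := by omega
        rw [h4, List.getD_append_right _ _ _ _ (by rw [hlen0]), hlen0]
        simp only [Nat.sub_self, List.getD_cons_zero]
        exact Nat.mod_lt _ (bb_pos n)
  let r2 : Cond M I := upd r1 c _ hleg
  have hr2c : r2 c = ⟨((r1 c).stem ++ List.replicate (n - L) 0) ++ [v % bb n], (r1 c).pr⟩ :=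
    upd_same _ _ _ _
  have hr21 : le Γ Set.univ r2 r1 := by
    intro i _
    by_cases hi : i = c
    · subst hi
      refine ext_noreq hreq ?_ (by rw [hr2c])
      rw [hr2c, List.append_assoc]
      exact List.prefix_append _ _
    · exact ext_of_eq (upd_of_ne _ _ _ hi)
  have hr2r : (@LE.le (PP Γ) _ r2 r) := le_trans' low_univ hr21 hr1
  have hval : Val (le Γ Set.univ) r2 X n v := by
    refine Val.toUniv hT hX (hv.mono hT ?_)
    exact le_trans' hT (le_mono (Set.subset_univ _) hr21) (mix_eq hT _ _)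
  have hNn : N ≤ n := le_max_left _ _
  refine ⟨r2, hr2r, n, (show (r2 : PP Γ) ∈ fground (N ≤ n) from hNn), mem_fex.2 fun u hu => ⟨u, le_rfl, v, ?_, ?_⟩⟩
  · exact down_meets _ _ (hq r2 (hr2r.trans hr) n v hval) _ hu
  · refine down_meets _ _ (meets_of_mem (P := PP Γ) (N := coh Γ c n (v % bb n)) (p := r2)
      ⟨?_, ?_⟩) _ hu
    · show n < (r2 c).stem.length
      rw [hr2c]
      show n < (((r1 c).stem ++ List.replicate (n - L) 0) ++ [v % bb n]).length
      rw [List.length_append, hlen0]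
      simp
    · show (r2 c).stem.getD n 0 = v % bb n
      rw [hr2c]
      show (((r1 c).stem ++ List.replicate (n - L) 0) ++ [v % bb n]).getD n 0 = v % bb n
      rw [List.getD_append_right _ _ _ _ hlen0.le, hlen0]
      simp

/-- the generic function at `j` evades the slaloms named in the requirements -/
theorem evade {j : I} {m : M} {X : Nm M I} (hreq : Γ.req j m = some X)
    (hX : Supp (below Γ j) X) {ψ : ℕ → ℕ → Set (PP Γ)} {q : PP Γ} (hψ : q ∈ IsFun ψ)
    (hq : RawOf Γ q X ψ) :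
    q ∈ fex fun N => fall fun n => fimp (fground (N ≤ n)) (fall fun i =>
      fimp (fground (i ≤ n))
        (fnot (fex fun v => fand (meets (coh Γ j n v))
          (meets (ψ (Nat.pair n i) (v % bb n)))))) := by
  refine mem_fex.2 fun r hr => ?_
  obtain ⟨r', hr', hlen, hpr, -⟩ := ext_long Γ j (((PP.toC r) j).pr.card + 1) (PP.toC r)
  have hleg : Legit (⟨(r' j).stem, insert m (r' j).pr⟩ : CV M) := by
    refine ⟨?_, (r'.legit j).2⟩
    refine (Finset.card_insert_le _ _).trans ?_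
    rw [hpr]
    exact hlen
  let r1 : Cond M I := upd r' j ⟨(r' j).stem, insert m (r' j).pr⟩ hleg
  have hr1j : r1 j = ⟨(r' j).stem, insert m (r' j).pr⟩ := upd_same _ _ _ _
  have hr1 : le Γ Set.univ r1 r' := by
    intro i _
    by_cases hi : i = j
    · subst hi
      exact ext_same_stem (by rw [hr1j]) (by rw [hr1j]; exact Finset.subset_insert _ _)
    · exact ext_of_eq (upd_of_ne _ _ _ hi)
  have hr1r : (@LE.le (PP Γ) _ r1 r) := le_trans' low_univ hr1 hr'
  refine ⟨r1, hr1r, (r1 j).stem.length, fun n => ?_⟩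
  refine mem_fimp.2 fun R2 hR2 hn => ⟨R2, le_rfl, fun i => ?_⟩
  have hn' : (r1 j).stem.length ≤ n := hn
  refine mem_fimp.2 fun R3 hR3 hi => ⟨R3, le_rfl, ?_⟩
  have hi' : i ≤ n := hi
  intro s hs hcon
  obtain ⟨u, hu, v, hv1, hv2⟩ := mem_fex.1 hcon s le_rfl
  obtain ⟨w, hw, z, hz, hwz⟩ := hv1 u le_rfl
  obtain ⟨w', hw', v', hv'⟩ := Val.dense (Γ := Γ) low_univ (PP.toC w) X (Nat.pair n i)
  have hw'w : (@LE.le (PP Γ) _ w' w) := hw'
  have hw'r1 : (@LE.le (PP Γ) _ w' r1) :=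
    hw'w.trans (hw.trans (hu.trans (hs.trans (hR3.trans hR2))))
  have hw'q : (@LE.le (PP Γ) _ w' q) := hw'r1.trans (hr1r.trans hr)
  have hw'z : le Γ Set.univ w' (PP.toC z) := hw'w.trans hwz
  have hlw : n < (w' j).stem.length := lt_of_lt_of_le hz.1 (length_le j hw'z)
  have hgw : (w' j).stem.getD n 0 = v := by
    rw [getD_prefix (ext_stem (hw'z j (Set.mem_univ _))) hz.1]
    exact hz.2
  have hvb : v < bb n := by
    rw [← hgw]
    exact (w'.legit j).2 n hlw
  have h1 : w' ∈ meets (ψ (Nat.pair n i) v') := hq w' hw'q _ _ hv'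
  have h2 : w' ∈ meets (ψ (Nat.pair n i) (v % bb n)) := down_meets _ _ hv2 _ (hw'w.trans hw)
  have h3 : v' = v % bb n := IsFun.unique (down_IsFun ψ _ hψ _ hw'q) h1 h2
  rw [Nat.mod_eq_of_lt hvb] at h3
  have h4 : ext Γ j w' r1 := hw'r1 j (Set.mem_univ _)
  rw [ext_iff] at h4
  refine h4.2.2 m (by rw [hr1j]; exact Finset.mem_insert_self _ _) X hreq n hn' hlw i hi' w'
    (le_refl' _ _) v' ?_ ?_
  · exact (Val.iff_of_supp (low_below _) (Set.subset_univ _) hX).1 hv'
  · rw [hgw, h3]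

/-- the sentence saying that the Cohen function at `c` is not captured by the slalom `ψ` -/
def Free (Γ : Par M I) (c : I) (ψ : ℕ → ℕ → Set (PP Γ)) : Set (PP Γ) :=
  fall fun N => fex fun n => fand (fground (N ≤ n)) (fall fun i => fimp (fground (i ≤ n))
    (fnot (fex fun v => fand (meets (coh Γ c n v)) (meets (ψ (Nat.pair n i) (v % bb n))))))

theorem free_countable {C : Type} {lc : C → I} (hinj : Function.Injective lc)
    (hreq : ∀ c k, Γ.req (lc c) k = none) {ψ : ℕ → ℕ → Set (PP Γ)} {q : PP Γ}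
    (hψ : q ∈ IsFun ψ) {X : Nm M I} (hX : RawOf Γ q X ψ) :
    {c | q ∉ Free Γ (lc c) ψ}.Countable := by
  have h1 : ∀ c, ∃ (N : ℕ) (p : PP Γ), c ∈ {c | q ∉ Free Γ (lc c) ψ} → p ≤ q ∧
      ∀ s, s ≤ p → ∀ n, N ≤ n → s ∉ (fall fun i => fimp (fground (i ≤ n))
        (fnot (fex fun v => fand (meets (coh Γ (lc c) n v))
          (meets (ψ (Nat.pair n i) (v % bb n))))) : Set (PP Γ)) := by
    intro c
    by_cases hc : q ∈ Free Γ (lc c) ψ
    · exact ⟨0, q, fun h => absurd hc h⟩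
    · simp only [Free, mem_fall, not_forall] at hc
      obtain ⟨N, hN⟩ := hc
      rw [mem_fex] at hN
      push Not at hN
      obtain ⟨r, hr, h2⟩ := hN
      exact ⟨N, r, fun _ => ⟨hr, fun s hs n hn hcon => h2 s hs n ⟨hn, hcon⟩⟩⟩
  choose N p hp using h1
  refine caught (Γ := Γ) lc hinj hreq X _ N (fun c => PP.toC (p c)) ?_
  intro c hc s hs n hn hlen hall
  obtain ⟨hpq, hp2⟩ := hp c hc
  refine hp2 s hs n hn fun i => ?_
  refine mem_fimp.2 fun u hu hi => ⟨u, le_rfl, ?_⟩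
  obtain ⟨w, hw, hne⟩ := hall i hi
  intro u' hu' hcon
  obtain ⟨w1, hw1, v, hv1, hv2⟩ := mem_fex.1 hcon u' le_rfl
  obtain ⟨w2, hw2, z, hz, hwz⟩ := hv1 w1 le_rfl
  have h3 : (@LE.le (PP Γ) _ w2 s) := hw2.trans (hw1.trans (hu'.trans hu))
  have h4 : v = (s (lc c)).stem.getD n 0 := by
    rw [← hz.2]
    exact getD_eq_of_common (Γ := Γ) hwz h3 hz.1 hlen
  have h5 : (@LE.le (PP Γ) _ w2 q) := h3.trans ((show (@LE.le (PP Γ) _ s (p c)) from hs).trans hpq)
  have h6 : w2 ∈ meets (ψ (Nat.pair n i) w) := hX w2 h5 _ _ (hw.mono low_univ h3)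
  have h7 : w2 ∈ meets (ψ (Nat.pair n i) (v % bb n)) := down_meets _ _ hv2 _ hw2
  have h8 : w = v % bb n := IsFun.unique (down_IsFun ψ _ hψ _ h5) h6 h7
  have hvb : v < bb n := by
    rw [h4]
    exact (s.legit (lc c)).2 n hlen
  rw [Nat.mod_eq_of_lt hvb] at h8
  exact hne (by rw [h8, h4])

/-! ### The six statements -/

theorem infEqual {K : Type} (ck : K → I) (hreq : ∀ k a, Γ.req (ck k) a = none)
    (hs : ∀ X : Nm M I, ∃ k T, Low Γ T ∧ ck k ∉ T ∧ Supp T X) (p : PP Γ) :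
    p ∈ InfEqualN (PP Γ) K := by
  refine mem_fex.2 fun p1 _ => ⟨p1, le_rfl, fun k => coh Γ (ck k), fun k => coh_isFun _ _, ?_⟩
  intro x
  refine mem_fimp.2 fun q _ hx => ⟨q, le_rfl, ?_⟩
  obtain ⟨X, hX⟩ := exists_raw hx
  obtain ⟨k, T, hT, hk, hs⟩ := hs X
  refine mem_fex.2 fun r hr => ⟨r, le_rfl, k, ?_⟩
  exact meetInf (hreq k) hT hk hs (hX.mono hr)

theorem meetAll {K : Type} (hs : ∀ X : K → Nm M I, ∃ (c : I) (T : Set I),
      (∀ a, Γ.req c a = none) ∧ Low Γ T ∧ c ∉ T ∧ ∀ k, Supp T (X k)) (p : PP Γ) :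
    p ∈ MeetAllN (PP Γ) K := by
  intro x
  refine mem_fimp.2 fun q _ hx => ⟨q, le_rfl, ?_⟩
  choose X hX using fun k => exists_raw (hx k)
  obtain ⟨c, T, hc, hT, hcT, hs⟩ := hs X
  refine mem_fex.2 fun r hr => ⟨r, le_rfl, coh Γ c, coh_isFun _ _, fun k => ?_⟩
  exact meetInf hc hT hcT (hs k) ((hX k).mono hr)

theorem evadeAll {T : Type} (hs : ∀ X : T → Nm M I, ∃ j, ∀ t, Supp (below Γ j) (X t) ∧
      ∃ m, Γ.req j m = some (X t)) (p : PP Γ) : p ∈ EvadeAllN (PP Γ) T := by
  intro ψ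
  refine mem_fimp.2 fun q _ hψ => ⟨q, le_rfl, ?_⟩
  choose X hX using fun k => exists_raw (hψ k)
  obtain ⟨j, hj⟩ := hs X
  refine mem_fex.2 fun r hr => ⟨r, le_rfl, coh Γ j, coh_isFun _ _, fun t => ?_⟩
  obtain ⟨h1, m, h2⟩ := hj t
  exact evade h2 h1 (down_IsFun _ _ (hψ t) _ hr) ((hX t).mono hr)

theorem evading {L : Type} (ev : L → I) (hs : ∀ X : Nm M I, ∃ l, Supp (below Γ (ev l)) X ∧
      ∃ m, Γ.req (ev l) m = some X) (p : PP Γ) : p ∈ EvadingN (PP Γ) L := by
  refine mem_fex.2 fun p1 _ => ⟨p1, le_rfl, fun k => coh Γ (ev k), fun k => coh_isFun _ _, ?_⟩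
  intro ψ
  refine mem_fimp.2 fun q _ hψ => ⟨q, le_rfl, ?_⟩
  obtain ⟨X, hX⟩ := exists_raw hψ
  obtain ⟨l, h1, m, h2⟩ := hs X
  refine mem_fex.2 fun r hr => ⟨r, le_rfl, l, ?_⟩
  exact evade h2 h1 (down_IsFun _ _ hψ _ hr) (hX.mono hr)

theorem notCaught {C T : Type} {lc : C → I} (hinj : Function.Injective lc)
    (hreq : ∀ c k, Γ.req (lc c) k = none) [Uncountable T] (ι : T → C)
    (hι : Function.Injective ι) (p : PP Γ) : p ∈ NotCaughtN (PP Γ) T := by
  refine mem_fex.2 fun p1 _ => ⟨p1, le_rfl, fun t => coh Γ (lc (ι t)),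
    fun k => coh_isFun _ _, ?_⟩
  intro ψ
  refine mem_fimp.2 fun q _ hψ => ⟨q, le_rfl, ?_⟩
  obtain ⟨X, hX⟩ := exists_raw hψ
  refine mem_fex.2 fun r hr => ⟨r, le_rfl, ?_⟩
  have h1 := free_countable (Γ := Γ) hinj hreq (down_IsFun _ _ hψ _ hr) (hX.mono hr)
  have h2 : {t | r ∉ Free Γ (lc (ι t)) ψ}.Countable := h1.preimage hι
  by_contra hcon
  push Not at hcon
  refine Set.not_countable_univ (α := T) (h2.mono fun t _ => hcon t)

theorem escape {C L : Type} {lc : C → I} (hinj : Function.Injective lc)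
    (hreq : ∀ c k, Γ.req (lc c) k = none)
    (hC : ∀ A : L → Set C, (∀ l, (A l).Countable) → ∃ c, ∀ l, c ∉ A l) (p : PP Γ) :
    p ∈ EscapeN (PP Γ) L := by
  intro ψ
  refine mem_fimp.2 fun q _ hψ => ⟨q, le_rfl, ?_⟩
  choose X hX using fun k => exists_raw (hψ k)
  refine mem_fex.2 fun r hr => ?_
  obtain ⟨c, hc⟩ := hC (fun l => {c | r ∉ Free Γ (lc c) (ψ l)}) fun l =>
    free_countable (Γ := Γ) hinj hreq (down_IsFun _ _ (hψ l) _ hr) ((hX l).mono hr)
  refine ⟨r, le_rfl, coh Γ (lc c), coh_isFun _ _, fun l => ?_⟩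
  have := hc l
  simp only [Set.mem_ofPred_eq, not_not] at this
  exact this

end Pool.Agent.H631.EV
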