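import Pool.Agent.H631.EV.Frame
import Pool.Agent.H631.EV.Ideal

/-!
# The values of the cardinal invariants of `S_{I, ε}`
-/

set_option autoImplicit false

namespace Pool.Agent.H631.EV

open Cardinal Filter Topology Classical

/-- the partition -/
def aa (n : ℕ) : ℕ := 2 * n * (n + 1)

theorem aa_succ (n : ℕ) : aa (n + 1) = aa n + 4 * (n + 1) := by
  simp only [aa]
  ring

theorem aa_part : IsPartition aa :=
  ⟨rfl, strictMono_nat_of_lt_succ fun n => by rw [aa_succ]; omega⟩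

/-- the sequence `ε` -/
noncomputable def ee (n : ℕ) : ℝ := (n + 1) / 16 ^ (n + 1)

theorem ee_pos (n : ℕ) : 0 < ee n := by
  unfold ee
  positivity

theorem ee_summable : Summable ee := by
  have h1 : Summable fun n : ℕ => ((n : ℝ) ^ 1 * (1 / 16 : ℝ) ^ n) :=
    summable_pow_mul_geometric_of_norm_lt_one 1 (by
      rw [Real.norm_of_nonneg (by norm_num)]
      norm_num)
  have h2 : Summable fun n : ℕ => (((n + 1 : ℕ) : ℝ) ^ 1 * (1 / 16 : ℝ) ^ (n + 1)) :=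
    (summable_nat_add_iff 1).2 h1
  refine h2.congr fun n => ?_
  simp only [ee, pow_one, one_div, inv_pow]
  push_cast
  rw [div_eq_mul_inv]

theorem width_eq (n : ℕ) : (2 : ℝ) ^ (aa (n + 1) - aa n) * ee n = n + 1 := by
  have h1 : aa (n + 1) - aa n = 4 * (n + 1) := by rw [aa_succ]; omega
  rw [h1, ee, pow_mul]
  norm_num
  field_simp

theorem card_Iv (n : ℕ) : Fintype.card (Iv aa n → Bool) = bb n := by
  have h1 : Fintype.card (Iv aa n) = 4 * (n + 1) := by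
    rw [Fintype.card_of_subtype (Finset.Ico (aa n) (aa (n + 1))) (fun i => by simp),
      Nat.card_Ico, aa_succ]
    omega
  rw [Fintype.card_fun, Fintype.card_bool, h1, pow_mul]
  rfl

/-- the number of a function on the interval -/
noncomputable def cod (n : ℕ) (w : Iv aa n → Bool) : ℕ :=
  (Fintype.equivFinOfCardEq (card_Iv n) w).val

/-- the function with the number `m` modulo the bound -/
noncomputable def dcd (n m : ℕ) : Iv aa n → Bool :=
  (Fintype.equivFinOfCardEq (card_Iv n)).symm ⟨m % bb n, Nat.mod_lt _ (bb_pos n)⟩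

theorem cod_lt (n : ℕ) (w : Iv aa n → Bool) : cod n w < bb n :=
  (Fintype.equivFinOfCardEq (card_Iv n) w).isLt

theorem cod_dcd (n m : ℕ) : cod n (dcd n m) = m % bb n := by
  simp [cod, dcd]

theorem cod_inj (n : ℕ) : Function.Injective (cod n) := fun _ _ h =>
  (Fintype.equivFinOfCardEq (card_Iv n)).injective (Fin.ext h)

/-- the ideal -/
abbrev JJ : Set (Set (ℕ → Bool)) := SIdeal aa ee

theorem small_of {φ : (n : ℕ) → Finset (Iv aa n → Bool)} (h : InSigma aa ee φ) :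
    ∃ N, ∀ n, N ≤ n → (φ n).card ≤ n + 1 := by
  have h1 : ∀ᶠ n in atTop, ((φ n).card : ℝ) / (2 ^ (aa (n + 1) - aa n) * ee n) < 1 :=
    h.eventually (gt_mem_nhds one_pos)
  obtain ⟨N, hN⟩ := eventually_atTop.1 h1
  refine ⟨N, fun n hn => ?_⟩
  have h2 := hN n hn
  rw [width_eq, div_lt_one (by positivity)] at h2
  exact_mod_cast h2.le

theorem slalom_of {φ : (n : ℕ) → Finset (Iv aa n → Bool)} (h : InSigma aa ee φ) :
    ∃ (N : ℕ) (ψ : ℕ → ℕ), ∀ n, N ≤ n → (φ n).card ≤ n + 1 ∧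
      ∀ w ∈ φ n, ∃ i, i ≤ n ∧ ψ (Nat.pair n i) = cod n w := by
  obtain ⟨N, hN⟩ := small_of h
  let G : ℕ × ℕ → ℕ := fun z => cod z.1 ((φ z.1).toList.getD z.2 fun _ => false)
  refine ⟨N, fun m => G (Nat.unpair m), fun n hn => ⟨hN n hn, fun w hw => ?_⟩⟩
  have h1 : w ∈ (φ n).toList := Finset.mem_toList.2 hw
  obtain ⟨i, hi, hiw⟩ := List.getElem_of_mem h1
  have h2 : (φ n).toList.length ≤ n + 1 := by
    rw [Finset.length_toList]
    exact hN n hn
  refine ⟨i, by omega, ?_⟩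
  show G (Nat.unpair (Nat.pair n i)) = _
  rw [Nat.unpair_pair]
  show cod n ((φ n).toList.getD i fun _ => false) = _
  rw [List.getD_eq_getElem _ _ hi, hiw]

/-- the slalom of width `1` given by a function -/
noncomputable def one (y : ℕ → ℕ) (n : ℕ) : Finset (Iv aa n → Bool) :=
  Finset.univ.filter fun w => cod n w = y n

theorem one_mem {y : ℕ → ℕ} {n : ℕ} {w : Iv aa n → Bool} : w ∈ one y n ↔ cod n w = y n := by
  simp [one]

theorem one_sigma (y : ℕ → ℕ) : InSigma aa ee (one y) := by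
  have h1 : ∀ n, ((one y n).card : ℝ) / (2 ^ (aa (n + 1) - aa n) * ee n) ≤ 1 / ((n : ℝ) + 1) := by
    intro n
    rw [width_eq]
    gcongr
    have h2 : (one y n).card ≤ 1 := Finset.card_le_one.2 fun a ha b hb =>
      cod_inj n ((one_mem.1 ha).trans (one_mem.1 hb).symm)
    exact_mod_cast h2
  refine squeeze_zero (fun n => ?_) h1 tendsto_one_div_add_atTop_nhds_zero_nat
  rw [width_eq]
  positivity

theorem one_ideal (y : ℕ → ℕ) : InfOften aa (one y) ∈ JJ :=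
  ⟨one y, one_sigma y, Set.Subset.rfl⟩

theorem singleton_mem (x : ℕ → Bool) : {x} ∈ JJ := by
  refine ⟨one fun n => cod n (res aa n x), one_sigma _, ?_⟩
  rintro _ rfl N
  exact ⟨N, le_rfl, one_mem.2 rfl⟩

/-- a point in `[y]_∞` outside `[φ]_∞` -/
theorem separate {φ : (n : ℕ) → Finset (Iv aa n → Bool)} {N : ℕ} {ψ : ℕ → ℕ}
    (hφ : ∀ n, N ≤ n → (φ n).card ≤ n + 1 ∧ ∀ w ∈ φ n, ∃ i, i ≤ n ∧ ψ (Nat.pair n i) = cod n w)
    {y : ℕ → ℕ} (hy : ∀ M, ∃ n, M ≤ n ∧ ∀ i, i ≤ n → ψ (Nat.pair n i) ≠ y n % bb n) :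
    ∃ x, x ∈ InfOften aa (one fun n => y n % bb n) ∧ x ∉ InfOften aa φ := by
  have hex : ∀ n, ∃ w : Iv aa n → Bool, N ≤ n → (w ∉ φ n ∧
      ((∀ i, i ≤ n → ψ (Nat.pair n i) ≠ y n % bb n) → cod n w = y n % bb n)) := by
    intro n
    by_cases hN : N ≤ n
    swap
    · exact ⟨fun _ => false, fun h => absurd h hN⟩
    by_cases h : ∀ i, i ≤ n → ψ (Nat.pair n i) ≠ y n % bb n
    · refine ⟨dcd n (y n), fun _ => ⟨fun hmem => ?_, fun _ => cod_dcd n _⟩⟩
      obtain ⟨i, hi, h2⟩ := (hφ n hN).2 _ hmem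
      exact h i hi (by rw [h2, cod_dcd])
    · have h2 : (φ n).card < (Finset.univ : Finset (Iv aa n → Bool)).card := by
        rw [Finset.card_univ, card_Iv]
        refine lt_of_le_of_lt (hφ n hN).1 ?_
        have h3 : n + 1 < 2 ^ (n + 1) := Nat.lt_two_pow_self
        exact h3.trans_le (Nat.pow_le_pow_left (by norm_num) _)
      obtain ⟨w, -, hw⟩ := Finset.exists_mem_notMem_of_card_lt_card h2
      exact ⟨w, fun _ => ⟨hw, fun h3 => absurd h3 h⟩⟩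
  choose w hw using hex
  obtain ⟨x, hx⟩ := glue aa_part w
  refine ⟨x, fun M => ?_, fun hmem => ?_⟩
  · obtain ⟨n, hn, h2⟩ := hy (max M N)
    refine ⟨n, (le_max_left _ _).trans hn, one_mem.2 ?_⟩
    rw [hx]
    exact (hw n ((le_max_right _ _).trans hn)).2 h2
  · obtain ⟨n, hn, h2⟩ := hmem N
    rw [hx] at h2
    exact (hw n hn).1 h2

theorem univ_notMem : Set.univ ∉ JJ := by
  rintro ⟨φ, hφ, hsub⟩
  obtain ⟨N, ψ, h⟩ := slalom_of hφ
  have h1 : ∀ n, ∃ w : Iv aa n → Bool, N ≤ n → w ∉ φ n := by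
    intro n
    by_cases hN : N ≤ n
    swap
    · exact ⟨fun _ => false, fun h => absurd h hN⟩
    have h2 : (φ n).card < (Finset.univ : Finset (Iv aa n → Bool)).card := by
      rw [Finset.card_univ, card_Iv]
      refine lt_of_le_of_lt (h n hN).1 ?_
      have h3 : n + 1 < 2 ^ (n + 1) := Nat.lt_two_pow_self
      exact h3.trans_le (Nat.pow_le_pow_left (by norm_num) _)
    obtain ⟨w, -, hw⟩ := Finset.exists_mem_notMem_of_card_lt_card h2
    exact ⟨w, fun _ => hw⟩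
  choose w hw using h1
  obtain ⟨x, hx⟩ := glue aa_part w
  obtain ⟨n, hn, h2⟩ := hsub (Set.mem_univ x) N
  rw [hx] at h2
  exact hw n hn h2

/-- a nonempty family of small size is the image of the index set -/
theorem exists_onto {α β : Type} {F : Set α} (hF : F.Nonempty) (h : #F ≤ #β) :
    ∃ g : β → α, (∀ b, g b ∈ F) ∧ ∀ A ∈ F, ∃ b, g b = A := by
  obtain ⟨⟨f, hf⟩⟩ := h
  obtain ⟨A0, hA0⟩ := hF
  refine ⟨fun b => if h : ∃ A : F, f A = b then h.choose.1 else A0, fun b => ?_, fun A hA => ?_⟩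
  · show (if h : ∃ A : F, f A = b then h.choose.1 else A0) ∈ F
    split_ifs with h
    · exact h.choose.2
    · exact hA0
  · refine ⟨f ⟨A, hA⟩, ?_⟩
    have h1 : ∃ A' : F, f A' = f ⟨A, hA⟩ := ⟨_, rfl⟩
    simp only [dif_pos h1]
    exact congrArg Subtype.val (hf h1.choose_spec)

theorem add_le {T : Type} (h : NotCaught T) : addC JJ ≤ #T := by
  obtain ⟨φ, hφ⟩ := h
  refine le_trans (b := #(Set.range fun t => InfOften aa (one fun n => φ t n % bb n))) ?_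
    Cardinal.mk_range_le
  refine csInf_le' ⟨_, ?_, ?_, rfl⟩
  · rintro _ ⟨t, rfl⟩
    exact one_ideal _
  · rintro ⟨χ, hχ, hsub⟩
    obtain ⟨N, ψ, h⟩ := slalom_of hχ
    obtain ⟨t, ht⟩ := hφ ψ
    obtain ⟨x, hx1, hx2⟩ := separate h (y := φ t) fun M => by
      obtain ⟨n, hn, h2⟩ := ht M
      exact ⟨n, hn, fun i hi h3 => h2 i hi ⟨φ t n, rfl, h3⟩⟩
    exact hx2 (hsub ⟨_, ⟨t, rfl⟩, hx1⟩)

theorem lt_cov {T : Type} (h : EvadeAll T) : #T < covC JJ := by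
  have hne : {κ : Cardinal.{0} | ∃ F : Set (Set (ℕ → Bool)), F ⊆ JJ ∧ ⋃₀ F = Set.univ ∧
      #F = κ}.Nonempty := by
    refine ⟨_, Set.range (fun x : ℕ → Bool => ({x} : Set (ℕ → Bool))), ?_, ?_, rfl⟩
    · rintro _ ⟨x, rfl⟩
      exact singleton_mem x
    · rw [Set.sUnion_range]
      exact Set.iUnion_of_singleton _
  obtain ⟨F, hF, hcov, hc⟩ := csInf_mem hne
  change #F = covC JJ at hc
  by_contra hcon
  rw [not_lt, ← hc] at hcon
  have hFne : F.Nonempty := by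
    have h1 : (fun _ => false : ℕ → Bool) ∈ ⋃₀ F := by rw [hcov]; exact Set.mem_univ _
    obtain ⟨A, hA, -⟩ := h1
    exact ⟨A, hA⟩
  obtain ⟨g, hg1, hg2⟩ := exists_onto hFne hcon
  choose χ hχ hsub using fun t => hF (hg1 t)
  choose N ψ hψ using fun t => slalom_of (hχ t)
  obtain ⟨x, hx⟩ := h ψ
  obtain ⟨z, hz⟩ := glue aa_part fun n => dcd n (x n)
  have h1 : z ∈ ⋃₀ F := by rw [hcov]; exact Set.mem_univ _
  obtain ⟨A, hA, hzA⟩ := h1
  obtain ⟨t, rfl⟩ := hg2 A hA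
  obtain ⟨M, hM⟩ := hx t
  obtain ⟨n, hn, h2⟩ := hsub t hzA (max M (N t))
  obtain ⟨i, hi, h3⟩ := (hψ t n ((le_max_right _ _).trans hn)).2 _ h2
  rw [hz, cod_dcd] at h3
  exact hM n ((le_max_left _ _).trans hn) i hi ⟨x n, rfl, h3⟩

theorem cov_le {K : Type} (h : InfEqual K) : covC JJ ≤ #K := by
  obtain ⟨y, hy⟩ := h
  refine le_trans (b := #(Set.range fun k => InfOften aa (one (y k)))) ?_
    Cardinal.mk_range_le
  refine csInf_le' ⟨_, ?_, ?_, rfl⟩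
  · rintro _ ⟨t, rfl⟩
    exact one_ideal _
  · refine Set.eq_univ_of_forall fun z => ?_
    obtain ⟨k, hk⟩ := hy fun n => cod n (res aa n z)
    refine ⟨_, ⟨k, rfl⟩, fun N => ?_⟩
    obtain ⟨n, hn, v, hv, hv2⟩ := hk N
    refine ⟨n, hn, one_mem.2 ?_⟩
    rw [hv2, ← hv, Nat.mod_eq_of_lt (cod_lt n _)]

theorem lt_non {K : Type} (h : MeetAll K) : #K < nonC JJ := by
  have hne : {κ : Cardinal.{0} | ∃ A : Set (ℕ → Bool), A ∉ JJ ∧ #A = κ}.Nonempty :=
    ⟨_, Set.univ, univ_notMem, rfl⟩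
  obtain ⟨A, hA, hc⟩ := csInf_mem hne
  change #A = nonC JJ at hc
  by_contra hcon
  rw [not_lt, ← hc] at hcon
  have hAne : A.Nonempty := by
    rw [Set.nonempty_iff_ne_empty]
    rintro rfl
    exact hA ⟨one fun _ => 0, one_sigma _, Set.empty_subset _⟩
  obtain ⟨g, -, hg2⟩ := exists_onto hAne hcon
  obtain ⟨d, hd⟩ := h fun k n => cod n (res aa n (g k))
  refine hA ⟨one d, one_sigma d, ?_⟩
  intro z hz N
  obtain ⟨k, rfl⟩ := hg2 z hz
  obtain ⟨n, hn, v, hv, hv2⟩ := hd k N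
  refine ⟨n, hn, one_mem.2 ?_⟩
  rw [hv2, ← hv, Nat.mod_eq_of_lt (cod_lt n _)]

theorem non_le {L : Type} (h : Evading L) : nonC JJ ≤ #L := by
  obtain ⟨x, hx⟩ := h
  choose z hz using fun l => glue aa_part fun n => dcd n (x l n)
  refine le_trans (b := #(Set.range z)) ?_ Cardinal.mk_range_le
  refine csInf_le' ⟨_, ?_, rfl⟩
  rintro ⟨χ, hχ, hsub⟩
  obtain ⟨N, ψ, hψ⟩ := slalom_of hχ
  obtain ⟨l, M, hM⟩ := hx ψ
  obtain ⟨n, hn, h2⟩ := hsub ⟨l, rfl⟩ (max M N)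
  obtain ⟨i, hi, h3⟩ := (hψ n ((le_max_right _ _).trans hn)).2 _ h2
  rw [hz, cod_dcd] at h3
  exact hM n ((le_max_left _ _).trans hn) i hi ⟨x l n, rfl, h3⟩

theorem lt_cof {L : Type} (h : Escape L) : #L < cofC JJ := by
  have hne : {κ : Cardinal.{0} | ∃ F : Set (Set (ℕ → Bool)), F ⊆ JJ ∧
      (∀ A ∈ JJ, ∃ B ∈ F, A ⊆ B) ∧ #F = κ}.Nonempty :=
    ⟨_, JJ, Set.Subset.rfl, fun A hA => ⟨A, hA, Set.Subset.rfl⟩, rfl⟩
  obtain ⟨F, hF, hcof, hc⟩ := csInf_mem hne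
  change #F = cofC JJ at hc
  by_contra hcon
  rw [not_lt, ← hc] at hcon
  have hFne : F.Nonempty := by
    obtain ⟨B, hB, -⟩ := hcof _ (one_ideal fun _ => 0)
    exact ⟨B, hB⟩
  obtain ⟨g, hg1, hg2⟩ := exists_onto hFne hcon
  choose χ hχ hsub using fun t => hF (hg1 t)
  choose N ψ hψ using fun t => slalom_of (hχ t)
  obtain ⟨φ, hφ⟩ := h ψ
  obtain ⟨B, hB, hB2⟩ := hcof _ (one_ideal fun n => φ n % bb n)
  obtain ⟨l, rfl⟩ := hg2 B hB
  obtain ⟨x, hx1, hx2⟩ := separate (hψ l) (y := φ) fun M => by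
    obtain ⟨n, hn, h2⟩ := hφ l M
    exact ⟨n, hn, fun i hi h3 => h2 i hi ⟨φ n, rfl, h3⟩⟩
  exact hx2 (hsub l (hB2 hx1))

/-- the values of the cardinal invariants -/
theorem values {T K L : Type} (h : PhiFor T K L) :
    addC JJ ≤ #T ∧ #T < covC JJ ∧ covC JJ ≤ #K ∧ #K < nonC JJ ∧ nonC JJ ≤ #L ∧ #L < cofC JJ :=
  ⟨add_le h.1, lt_cov h.2.1, cov_le h.2.2.1, lt_non h.2.2.2.1, non_le h.2.2.2.2.1,
    lt_cof h.2.2.2.2.2⟩

end Pool.Agent.H631.EV
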